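import Pool.Agent.Lib.MP_2710d6_gt.KS.Defs
import Pool.Agent.Lib.MP_2710d6_gt.HK.Main

open MeasureTheory Set
open scoped Manifold ContDiff

namespace Pool.Agent.DonKS

open Pool.Agent.DonHK
open Pool.Agent.Don (om0 om1 om2 fue wed nsq alg1 alg2 nsq_nonneg nsq_zero)

def w3 (ξ η : Fin 4 → ℝ) (T : Fin 4 → Fin 4 → ℝ) : ℝ := wedge (fun a c => ξ a * η c - ξ c * η a) T

def pc (m : Fin 4 → Fin 4 → ℝ) (ξ : Fin 4 → ℝ) (a : Fin 4) : ℝ :=
  m a 0 * ξ 0 + m a 1 * ξ 1 + m a 2 * ξ 2 + m a 3 * ξ 3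

def pm (m T : Fin 4 → Fin 4 → ℝ) (a c : Fin 4) : ℝ :=
  (m a 0 * m c 1 - m a 1 * m c 0) * T 0 1 + (m a 0 * m c 2 - m a 2 * m c 0) * T 0 2 +
  (m a 0 * m c 3 - m a 3 * m c 0) * T 0 3 + (m a 1 * m c 2 - m a 2 * m c 1) * T 1 2 +
  (m a 1 * m c 3 - m a 3 * m c 1) * T 1 3 + (m a 2 * m c 3 - m a 3 * m c 2) * T 2 3

theorem wedge_pm (m A B : Fin 4 → Fin 4 → ℝ) : wedge (pm m A) (pm m B) = dt m * wedge A B := by
  simp only [wedge, pm, dt]; ring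

theorem w3_pm (m T : Fin 4 → Fin 4 → ℝ) (ξ η : Fin 4 → ℝ) :
    w3 (pc m ξ) (pc m η) (pm m T) = dt m * w3 ξ η T := by
  simp only [w3, wedge, pm, pc, dt]; ring

/-- `s (e_0 e_2 - e_1 e_3)` and `s (e_0 e_3 + e_1 e_2)`, upper entries. -/
def t2 (s : ℝ) : Fin 4 → Fin 4 → ℝ := ![![0, 0, s, 0], ![0, 0, 0, -s], ![0, 0, 0, 0], ![0, 0, 0, 0]]
def t3 (s : ℝ) : Fin 4 → Fin 4 → ℝ := ![![0, 0, 0, s], ![0, 0, s, 0], ![0, 0, 0, 0], ![0, 0, 0, 0]]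

/-- A unitary frame. -/
noncomputable def um (r s a b : ℝ) : Fin 4 → Fin 4 → ℝ :=
  ![![1 / r, 0, 0, 0], ![0, 1 / r, 0, 0], ![-(b / (r * s)), -(a / (r * s)), r / s, 0],
    ![a / (r * s), -(b / (r * s)), 0, r / s]]

structure Herm (h : Fin 4 → Fin 4 → ℝ) (r s : ℝ) : Prop where
  r0 : r ≠ 0
  s0 : s ≠ 0
  hr : h 0 1 = r ^ 2
  h13 : h 1 3 = h 0 2
  h12 : h 1 2 = -h 0 3
  hs : wedge h h / 2 = s ^ 2

theorem Herm.h23 {h : Fin 4 → Fin 4 → ℝ} {r s : ℝ} (H : Herm h r s) :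
    h 2 3 = (s ^ 2 + h 0 2 ^ 2 + h 0 3 ^ 2) / r ^ 2 := by
  have := H.r0
  have e := H.hs
  simp only [wedge, H.hr, H.h13, H.h12] at e
  field_simp
  linear_combination e

theorem Herm.nf {h : Fin 4 → Fin 4 → ℝ} {r s : ℝ} (H : Herm h r s) :
    (pm (um r s (h 0 2) (h 0 3)) h 0 1 = 1 ∧ pm (um r s (h 0 2) (h 0 3)) h 0 2 = 0 ∧
      pm (um r s (h 0 2) (h 0 3)) h 0 3 = 0 ∧ pm (um r s (h 0 2) (h 0 3)) h 1 2 = 0 ∧
      pm (um r s (h 0 2) (h 0 3)) h 1 3 = 0 ∧ pm (um r s (h 0 2) (h 0 3)) h 2 3 = 1) ∧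
    (∀ X, wedge X (pm (um r s (h 0 2) (h 0 3)) (t2 s)) = X 0 2 - X 1 3) ∧
    (∀ X, wedge X (pm (um r s (h 0 2) (h 0 3)) (t3 s)) = X 0 3 + X 1 2) ∧
    dt (um r s (h 0 2) (h 0 3)) = 1 / s ^ 2 := by
  have := H.r0
  have := H.s0
  refine ⟨⟨?_, ?_, ?_, ?_, ?_, ?_⟩, fun X => ?_, fun X => ?_, ?_⟩ <;>
  simp only [wedge, pm, um, dt, t2, t3, H.hr, H.h13, H.h12, H.h23, Matrix.cons_val_zero,
    Matrix.cons_val_one, Matrix.cons_val] <;> field_simp <;> ring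

theorem pc_surj {r s : ℝ} (hr : r ≠ 0) (hs : s ≠ 0) (a b : ℝ) (η : Fin 4 → ℝ) :
    ∃ ξ, pc (um r s a b) ξ = η := by
  refine ⟨![r * η 0, r * η 1, (s * η 2 + b * η 0 + a * η 1) / r,
    (s * η 3 - a * η 0 + b * η 1) / r], funext fun c => ?_⟩
  fin_cases c
  · change pc _ _ 0 = η 0
    simp only [pc, um, Matrix.cons_val_zero, Matrix.cons_val_one, Matrix.cons_val]
    field_simp; ring
  · change pc _ _ 1 = η 1
    simp only [pc, um, Matrix.cons_val_zero, Matrix.cons_val_one, Matrix.cons_val]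
    field_simp; ring
  · change pc _ _ 2 = η 2
    simp only [pc, um, Matrix.cons_val_zero, Matrix.cons_val_one, Matrix.cons_val]
    field_simp; ring
  · change pc _ _ 3 = η 3
    simp only [pc, um, Matrix.cons_val_zero, Matrix.cons_val_one, Matrix.cons_val]
    field_simp; ring

/-- The boundary term, polarised form of `alg2`. -/
theorem alg3 {w k0 k1 k2 : ℝ} {A : Fin 4 → Fin 4 → ℝ} (ξ p q r G : Fin 4 → ℝ)
    (hG : ∀ a, G a = k0 * p a + k1 * q a + k2 * r a)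
    (h0 : 2 * w * k0 = A 0 1 + A 2 3) (h1 : 2 * w * k1 = A 0 2 - A 1 3)
    (h2 : 2 * w * k2 = A 0 3 + A 1 2) (hw : w = wedge A A / 2)
    (hV : ∀ c, fue 1 p q r c = 2 * wed G A c) :
    w * (k0 * om2 1 ξ q - k1 * om2 1 ξ p + (k1 * om0 1 ξ r - k2 * om0 1 ξ q) +
      (k2 * om1 1 ξ p - k0 * om1 1 ξ r)) = w3 ξ (wed G A) A := by
  have e : k0 * om2 1 ξ q - k1 * om2 1 ξ p + (k1 * om0 1 ξ r - k2 * om0 1 ξ q) +
      (k2 * om1 1 ξ p - k0 * om1 1 ξ r) = k0 * om0 1 ξ (fue 1 p q r) +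
      k1 * om1 1 ξ (fue 1 p q r) + k2 * om2 1 ξ (fue 1 p q r) -
      (ξ 0 * G 0 + ξ 1 * G 1 + ξ 2 * G 2 + ξ 3 * G 3) := by
    simp only [om0, om1, om2, fue, hG, Matrix.cons_val_zero, Matrix.cons_val_one, Matrix.cons_val]
    ring
  have e2 : w * (k0 * om0 1 ξ (fue 1 p q r) + k1 * om1 1 ξ (fue 1 p q r) +
      k2 * om2 1 ξ (fue 1 p q r) - (ξ 0 * G 0 + ξ 1 * G 1 + ξ 2 * G 2 + ξ 3 * G 3)) =
      ((A 0 1 + A 2 3) * om0 1 ξ (fue 1 p q r) + (A 0 2 - A 1 3) * om1 1 ξ (fue 1 p q r) +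
      (A 0 3 + A 1 2) * om2 1 ξ (fue 1 p q r)) / 2 -
      wedge A A / 2 * (ξ 0 * G 0 + ξ 1 * G 1 + ξ 2 * G 2 + ξ 3 * G 3) := by
    rw [← h0, ← h1, ← h2, ← hw]; ring
  rw [e, e2]
  simp only [om0, om1, om2, hV, wed, w3, wedge, Matrix.cons_val_zero, Matrix.cons_val_one,
    Matrix.cons_val]
  ring

section
variable {V : Type*} [AddCommGroup V] [Module ℝ V] {J : V →ₗ[ℝ] V}
  {B R : LinearMap.BilinForm ℝ V} {v : Fin 4 → V}

theorem ev_pm (hB : B.IsAlt) (e : Fin 4 → V) (m : Fin 4 → Fin 4 → ℝ) :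
    ev B (fun a => ∑ i, m a i • e i) = pm m (ev B e) :=
  funext fun _ => funext fun _ => ev_exp hB e _ _

theorem ev_pc (l : V →ₗ[ℝ] ℝ) (e : Fin 4 → V) (m : Fin 4 → Fin 4 → ℝ) :
    (fun a => l (∑ i, m a i • e i)) = pc m fun i => l (e i) := by
  funext a
  simp [Fin.sum_univ_four, pc]

theorem anti_apply (u w : V) : anti J B u w = (B u w - B (J u) (J w)) / 2 := by
  simp only [anti, LinearMap.smul_apply, LinearMap.sub_apply, LinearMap.BilinForm.comp_apply,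
    smul_eq_mul]
  ring

theorem anti_alt (h : B.IsAlt) : (anti J B).IsAlt := fun u => by
  rw [anti_apply, h u, h (J u)]; ring

def jx : Fin 4 → Fin 4 := ![1, 0, 3, 2]
def sg : Fin 4 → ℝ := ![1, -1, 1, -1]

theorem IsCx.eq (h : IsCx J v) (a : Fin 4) : J (v a) = sg a • v (jx a) := by
  fin_cases a
  exacts [h.1.trans (one_smul _ _).symm, h.2.1.trans (neg_one_smul _ _).symm,
    h.2.2.1.trans (one_smul _ _).symm, h.2.2.2.trans (neg_one_smul _ _).symm]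

theorem ev_anti (h : IsCx J v) (a c : Fin 4) :
    ev (anti J B) v a c = (ev B v a c - sg a * sg c * ev B v (jx a) (jx c)) / 2 := by
  simp only [ev, anti_apply, h.eq, map_smul, LinearMap.smul_apply, smul_eq_mul]
  ring

theorem ev_anti' (h : IsCx J v) (hB : B.IsAlt) :
    ev (anti J B) v 0 1 = 0 ∧ ev (anti J B) v 0 2 = (ev B v 0 2 - ev B v 1 3) / 2 ∧
    ev (anti J B) v 0 3 = (ev B v 0 3 + ev B v 1 2) / 2 ∧
    ev (anti J B) v 1 2 = (ev B v 0 3 + ev B v 1 2) / 2 ∧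
    ev (anti J B) v 1 3 = -(ev B v 0 2 - ev B v 1 3) / 2 ∧ ev (anti J B) v 2 3 = 0 := by
  simp only [ev, anti_apply, h.1, h.2.1, h.2.2.1, h.2.2.2, map_neg, LinearMap.neg_apply]
  rw [← hB.neg_eq (v 0) (v 1), ← hB.neg_eq (v 2) (v 3)]
  refine ⟨?_, ?_, ?_, ?_, ?_, ?_⟩ <;> first | trivial | ring

/-- A unitary basis. -/
structure NF (J : V →ₗ[ℝ] V) (B : LinearMap.BilinForm ℝ V) (v : Fin 4 → V) : Prop where
  cx : IsCx J v
  b01 : ev B v 0 1 = 1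
  b02 : ev B v 0 2 = 0
  b03 : ev B v 0 3 = 0
  b12 : ev B v 1 2 = 0
  b13 : ev B v 1 3 = 0
  b23 : ev B v 2 3 = 1
  span : ∀ u, ∃ z : Fin 4 → ℝ, u = ∑ a, z a • v a

theorem NF.wedge (h : NF J B v) (X : Fin 4 → Fin 4 → ℝ) : wedge X (ev B v) = X 0 1 + X 2 3 := by
  simp only [DonHK.wedge, h.b01, h.b02, h.b03, h.b12, h.b13, h.b23]; ring

theorem NF.ext (h : NF J B v) {l : V →ₗ[ℝ] ℝ} (h0 : ∀ a, l (v a) = 0) (u : V) : l u = 0 := by
  obtain ⟨z, rfl⟩ := h.span u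
  simp [h0]

theorem nf_of {e : Fin 4 → V} (he : IsCx J e) (hB : B.IsAlt) {r s : ℝ} (H : Herm (ev B e) r s)
    (hs : ∀ u, ∃ z : Fin 4 → ℝ, u = ∑ a, z a • e a) :
    NF J B fun a => ∑ i, um r s (ev B e 0 2) (ev B e 0 3) a i • e i := by
  have k := H.nf.1
  rw [← ev_pm hB] at k
  refine ⟨?_, k.1, k.2.1, k.2.2.1, k.2.2.2.1, k.2.2.2.2.1, k.2.2.2.2.2, fun u => ?_⟩
  · refine ⟨?_, ?_, ?_, ?_⟩ <;>
    simp only [Fin.sum_univ_four, um, map_add, map_smul, he.1, he.2.1, he.2.2.1, he.2.2.2,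
      Matrix.cons_val_zero, Matrix.cons_val_one, Matrix.cons_val] <;> module
  · obtain ⟨z, rfl⟩ := hs u
    have := H.r0
    have := H.s0
    refine ⟨![r * z 0 + (ev B e 0 3 * z 2 - ev B e 0 2 * z 3) / r,
      r * z 1 + (ev B e 0 2 * z 2 + ev B e 0 3 * z 3) / r, s / r * z 2, s / r * z 3], ?_⟩
    simp only [Fin.sum_univ_four, um, Matrix.cons_val_zero, Matrix.cons_val_one, Matrix.cons_val]
    match_scalars <;> field_simp <;> ring

theorem mu_ex (hB : B.IsAlt) (hR : R.IsAlt) {w : ℝ} (hw : w ≠ 0)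
    (hpf : ∀ v, NF J B v → wedge (ev R v) (ev R v) / 2 = w) (h0 : ∃ v, NF J B v)
    (G : V →ₗ[ℝ] ℝ) :
    ∃ μ : V →ₗ[ℝ] ℝ, ∀ v, NF J B v → ∀ c, μ (v c) = wed (fun a => G (v a)) (ev R v) c := by
  have key : ∀ v, NF J B v → ∀ u,
      R (∑ c, wed (fun a => G (v a)) (ev R v) c • v c) u = -w * G u := by
    intro v h u
    obtain ⟨z, rfl⟩ := h.span u
    rw [ev_exp hR, ← hpf v h]
    simp only [Fin.sum_univ_four, map_add, map_smul, smul_eq_mul, wed, wedge, ev,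
      Matrix.cons_val_zero, Matrix.cons_val_one, Matrix.cons_val]
    ring
  obtain ⟨v0, h0⟩ := h0
  refine ⟨(B (∑ c, wed (fun a => G (v0 a)) (ev R v0) c • v0 c)).comp J, fun v h c => ?_⟩
  have e : ∑ c, wed (fun a => G (v0 a)) (ev R v0) c • v0 c =
      ∑ c, wed (fun a => G (v a)) (ev R v) c • v c := by
    rw [← sub_eq_zero]
    obtain ⟨z, hz⟩ := h.span (∑ c, wed (fun a => G (v0 a)) (ev R v0) c • v0 c -
      ∑ c, wed (fun a => G (v a)) (ev R v) c • v c)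
    have k : ∀ y : Fin 4 → ℝ, R (∑ a, z a • v a) (∑ a, y a • v a) = 0 := fun y => by
      rw [← hz, map_sub, LinearMap.sub_apply, key v0 h0, key v h, sub_self]
    have q := hpf v h
    have k' : ∀ η : Fin 4 → ℝ, w * (z 0 * η 0 + z 1 * η 1 + z 2 * η 2 + z 3 * η 3) = 0 := by
      intro η
      have := k (wed η (ev R v))
      rw [ev_exp hR] at this
      simp only [wed, wedge, ev, Matrix.cons_val_zero, Matrix.cons_val_one,
        Matrix.cons_val] at this q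
      rw [← q]
      linear_combination this
    have := (mul_eq_zero.1 (k' z)).resolve_left hw
    have z0 : ∀ a, z a = 0 := nsq_zero (by unfold nsq; nlinarith)
    simp [hz, z0]
  rw [e, LinearMap.comp_apply, h.cx.eq]
  have b : ∀ a c, B (v a) (v c) = ev B v a c := fun _ _ => rfl
  have n : ∀ a c, ev B v c a = -ev B v a c := fun a c => (hB.neg_eq _ _).symm
  have d : ∀ a, ev B v a a = 0 := fun a => hB _
  simp only [Fin.sum_univ_four, map_add, map_smul, LinearMap.add_apply, LinearMap.smul_apply,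
    smul_eq_mul, b]
  fin_cases c
  · change (1 : ℝ) * (_ * ev B v 0 1 + _ * ev B v 1 1 + _ * ev B v 2 1 + _ * ev B v 3 1) =
      wed _ _ 0
    rw [n 1 2, n 1 3, d, h.b01, h.b12, h.b13]; ring
  · change (-1 : ℝ) * (_ * ev B v 0 0 + _ * ev B v 1 0 + _ * ev B v 2 0 + _ * ev B v 3 0) =
      wed _ _ 1
    rw [n 0 1, n 0 2, n 0 3, d, h.b01, h.b02, h.b03]; ring
  · change (1 : ℝ) * (_ * ev B v 0 3 + _ * ev B v 1 3 + _ * ev B v 2 3 + _ * ev B v 3 3) =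
      wed _ _ 2
    rw [d, h.b03, h.b13, h.b23]; ring
  · change (-1 : ℝ) * (_ * ev B v 0 2 + _ * ev B v 1 2 + _ * ev B v 2 2 + _ * ev B v 3 2) =
      wed _ _ 3
    rw [n 2 3, d, h.b02, h.b12, h.b23]; ring

end

end Pool.Agent.DonKS
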