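import Pool.Agent.Lib.MP_2710d6_gt.KS.Main

open MeasureTheory Set Filter Topology
open scoped Manifold ContDiff

namespace Pool.Agent.DonKS

open Pool.Agent.DonHK

theorem cyc_all {T : Fin 4 → Fin 4 → Fin 4 → ℝ} (hA : ∀ i a c, T i c a = -T i a c)
    (h0 : T 1 2 3 - T 2 1 3 + T 3 1 2 = 0) (h1 : T 0 2 3 - T 2 0 3 + T 3 0 2 = 0)
    (h2 : T 0 1 3 - T 1 0 3 + T 3 0 1 = 0) (h3 : T 0 1 2 - T 1 0 2 + T 2 0 1 = 0) (a c e : Fin 4) :
    T a c e - T c a e + T e a c = 0 := by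
  have hd : ∀ i a, T i a a = 0 := fun i a => by linarith [hA i a a]
  fin_cases a <;> fin_cases c <;> fin_cases e <;>
  simp only [Fin.zero_eta, Fin.mk_one, Fin.reduceFinMk, hd, hA _ 0 1, hA _ 0 2, hA _ 0 3, hA _ 1 2,
    hA _ 1 3, hA _ 2 3] <;> linarith

variable {M : Type*} [TopologicalSpace M] [ChartedSpace Pt M] {J : End1 M} {Ω ρ : Form2 M}

theorem closed_of_tr (h : Sm2 ρ)
    (k : ∀ p, ∀ y ∈ (chartAt Pt p).target, ∀ ξ, tr ξ (co2 ρ p) y = 0) : Closed2 ρ := by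
  refine ⟨h.1, h.2, fun p a c e y hy => cyc_all (T := fun i a c => pd i (co2 ρ p a c) y)
    (fun i a c => ?_) ?_ ?_ ?_ ?_ a c e⟩
  · rw [← pd_neg]
    exact congrArg (pd i · y) (funext fun z => ((h.1 _).neg_eq _ _).symm)
  · simpa [tr, d3] using k p y hy ![1, 0, 0, 0]
  · simpa [tr, d3] using k p y hy ![0, -1, 0, 0]
  · simpa [tr, d3] using k p y hy ![0, 0, 1, 0]
  · simpa [tr, d3] using k p y hy ![0, 0, 0, -1]

variable [IsManifold 𝓘(ℝ, Pt) ∞ M] [MeasurableSpace M] {μ : Measure M} [CompactSpace M]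
  [BorelSpace M] [T2Space M]

theorem classify [ConnectedSpace M] (h : IsKaehler J Ω) (hμ : IsVol Ω μ)
    (hs : ∀ p, ∀ y ∈ (chartAt Pt p).target, 0 ≤ scal Ω p y) (hρ : Closed2 ρ)
    (hp : ∀ x, 0 < quot Ω ρ ρ x) : IsCritical J Ω μ ρ ↔
      Closed2 (fun x => (quot Ω ρ ρ x)⁻¹ • anti (J x) (ρ x)) ∧ ∃ b c : ℝ, ∀ x,
        quot Ω ρ Ω x = b * quot Ω ρ ρ x ∧ sdTwo J Ω ρ x = c * quot Ω ρ ρ x ^ 2 := by
  constructor
  · intro hc
    obtain ⟨y⟩ : Nonempty M := inferInstance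
    have z := df_zero h hμ hs hρ hp hc
    have ck := fun x => const_of_df (sm_kk h hρ.sm hp) (fun x u => (z x u).1) x y
    have cn := fun x => const_of_df (sm_nn h hρ.sm hp) (fun x u => (z x u).2) x y
    have s2 : Sm fun x => (quot Ω ρ ρ x)⁻¹ := (sm_quot h.nd hρ.sm hρ.sm).inv₀ fun x => (hp x).ne'
    refine ⟨closed_of_tr ⟨fun x => (anti_alt (hρ.1 x)).smul _, fun p a c =>
      (sm_loc s2 p).mul ((h.sm_anti hρ.sm).2 p a c)⟩ fun p w hw ξ => ?_, kk Ω ρ y, nn J Ω ρ y,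
      fun x => ⟨?_, ?_⟩⟩
    · have E := weak_closed h hμ (sm_th h hρ.sm hp) (fun ζ hζ => by
        obtain ⟨l, hl⟩ := hζ
        have := (hasDerivAt_energy h hμ hρ.sm hp (IsD.sm hl)).unique (hc ζ ⟨l, hl⟩)
        rw [integral_const_mul] at this
        linarith) p hw ξ
      rw [tr_comb (chartAt Pt p).open_target hw (contDiffOn_const (c := 1 / 2))
        (contDiffOn_const (c := -(kk Ω ρ y / 2))) (contDiffOn_const (c := nn J Ω ρ y / 2))
        (contDiffOn_const (c := 0)) ((sm_th h hρ.sm hp).2 p) (h.2.1.2.1 p) (hρ.2.1 p) (hρ.2.1 p)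
        (fun a c _ z _ => by
          rw [← ck ((chartAt Pt p).symm z), ← cn ((chartAt Pt p).symm z)]
          simp only [co2, ev, th, Pi.add_apply, Pi.sub_apply, LinearMap.add_apply,
            LinearMap.sub_apply, LinearMap.smul_apply, smul_eq_mul]
          ring), E, tr_closed h.2.1 p hw, tr_closed hρ p hw]
      simp [w3, wedge, gr, pd_const]
    · rw [← ck x, kk, div_mul_cancel₀ _ (hp x).ne']
    · rw [← cn x, nn, div_mul_cancel₀ _ (pow_ne_zero 2 (hp x).ne')]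
  · rintro ⟨k, b, c, e⟩ ζ hζ
    have N := ((((nul_ex h hμ hζ h.2.1).cmul b).add ((nul_ex h hμ hζ k).cmul 2)).sub
      ((nul_ex h hμ hζ hρ).cmul c)).cmul 2
    obtain ⟨l, hl⟩ := hζ
    convert hasDerivAt_energy h hμ hρ.sm hp (IsD.sm hl)
    rw [← N.2.2]
    congr 1
    funext x
    beta_reduce
    rw [quot_th, kk, nn, (e x).1, (e x).2, mul_div_cancel_right₀ _ (hp x).ne',
      mul_div_cancel_right₀ _ (pow_ne_zero 2 (hp x).ne'), quot_comm _ ζ fun x => _ • _,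
      quot_fsmul Ω fun x => anti (J x) (ρ x), quot_comm _ (fun x => anti (J x) (ρ x)) ζ]
    ring

end Pool.Agent.DonKS
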