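import Pool.Agent.Lib.MP_2710d6_gt.HK.Defs

open MeasureTheory
open scoped Manifold ContDiff

namespace Pool.Agent.DonKS

open Pool.Agent.DonHK (Pt wedge lin Tan Form2 pd frame co2 Closed2 Exact quot)

section

variable {V : Type*} [AddCommGroup V] [Module ℝ V]

/-- `J` is the standard complex structure on the four vectors `v`. -/
def IsCx (J : V →ₗ[ℝ] V) (v : Fin 4 → V) : Prop :=
  J (v 0) = v 1 ∧ J (v 1) = -v 0 ∧ J (v 2) = v 3 ∧ J (v 3) = -v 2

/-- `B` is compatible with `J`, so that `B (u, J v)` is an inner product. -/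
def Compat (J : V →ₗ[ℝ] V) (B : LinearMap.BilinForm ℝ V) : Prop :=
  (∀ u v, B (J u) (J v) = B u v) ∧ ∀ u, u ≠ 0 → 0 < B u (J u)

/-- The `J`-anti-invariant part of `B`. -/
noncomputable def anti (J : V →ₗ[ℝ] V) (B : LinearMap.BilinForm ℝ V) : LinearMap.BilinForm ℝ V :=
  (1 / 2 : ℝ) • (B - B.comp J J)

/-- The bilinear form `t B`. -/
def scl (t : ℝ) (B : LinearMap.BilinForm ℝ V) : LinearMap.BilinForm ℝ V := t • B

end

variable {M : Type*} [TopologicalSpace M] [ChartedSpace Pt M]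

variable (M) in
/-- Fields of endomorphisms of the tangent spaces. -/
abbrev End1 := ∀ x : M, Tan x →ₗ[ℝ] Tan x

/-- A Kaehler surface: the charts are holomorphic for `J`, with `z_1 = y_0 + i y_1` and
`z_2 = y_2 + i y_3`, and `Ω` is a smooth closed two-form compatible with `J`. -/
def IsKaehler (J : End1 M) (Ω : Form2 M) : Prop :=
  (∀ p : M, ∀ y ∈ (chartAt Pt p).target, IsCx (J _) (frame p y)) ∧ Closed2 Ω ∧
    ∀ x, Compat (J x) (Ω x)

/-- The coefficients of `d^c f = - df ∘ J` in a holomorphic chart. -/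
noncomputable def dc (f : Pt → ℝ) : Fin 4 → Pt → ℝ :=
  ![fun y => -pd 1 f y, pd 0 f, fun y => -pd 3 f y, pd 2 f]

/-- The density of `dvol = Ω ∧ Ω / 2` in the chart at `p`. -/
noncomputable def dens (Ω : Form2 M) (p : M) (y : Pt) : ℝ :=
  wedge (fun a c => co2 Ω p a c y) (fun a c => co2 Ω p a c y) / 2

/-- The Ricci form `- i ∂ ∂bar log det g = - (1 / 2) d d^c log det g` in the chart at `p`. -/
noncomputable def ric (Ω : Form2 M) (p : M) (y : Pt) (a c : Fin 4) : ℝ :=
  -(pd a (dc (fun y => Real.log (dens Ω p y)) c) y -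
    pd c (dc (fun y => Real.log (dens Ω p y)) a) y) / 2

/-- The scalar curvature `s` of the Kaehler metric: `s dvol = 2 ric ∧ Ω`. -/
noncomputable def scal (Ω : Form2 M) (p : M) (y : Pt) : ℝ :=
  2 * wedge (ric Ω p y) (fun a c => co2 Ω p a c y) / dens Ω p y

/-- `2 |ρ+|^2` for the Kaehler metric: the self-dual part of `ρ` is the sum of its component
along `Ω` and its `J`-anti-invariant part. -/
noncomputable def sdTwo (J : End1 M) (Ω ρ : Form2 M) (x : M) : ℝ :=
  quot Ω ρ Ω x ^ 2 + 2 * quot Ω (fun x => anti (J x) (ρ x)) (fun x => anti (J x) (ρ x)) x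

/-- The anti-invariant part of `ρ` divided by `ρ ∧ ρ / dvol`. -/
noncomputable def hol (J : End1 M) (Ω ρ : Form2 M) : Form2 M :=
  fun x => scl (quot Ω ρ ρ x)⁻¹ (anti (J x) (ρ x))

variable [MeasurableSpace M]

/-- Donaldson's energy `∫ 2 |ρ+|^2 / (|ρ+|^2 - |ρ-|^2) dvol`. -/
noncomputable def energy (J : End1 M) (Ω : Form2 M) (μ : Measure M) (ρ : Form2 M) : ℝ :=
  ∫ x, sdTwo J Ω ρ x / quot Ω ρ ρ x ∂μ

/-- `ρ` is a critical point of the energy in its cohomology class. -/
def IsCritical (J : End1 M) (Ω : Form2 M) (μ : Measure M) (ρ : Form2 M) : Prop :=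
  ∀ ζ : Form2 M, Exact ζ → HasDerivAt (fun t : ℝ => energy J Ω μ fun x => lin (ρ x) (ζ x) t) 0 0

end Pool.Agent.DonKS
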