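import Pool.Agent.Lib.MP_2710d6_gt.KS.Point

open MeasureTheory Set Filter Topology
open scoped Manifold ContDiff

namespace Pool.Agent.DonKS

open Pool.Agent.DonHK

noncomputable def gr (f : Pt → ℝ) (y : Pt) (a : Fin 4) : ℝ := pd a f y

noncomputable def d1 (l : Fin 4 → Pt → ℝ) (y : Pt) (a c : Fin 4) : ℝ := pd a (l c) y - pd c (l a) y

noncomputable def d3 (T : Fin 4 → Fin 4 → Pt → ℝ) (y : Pt) (a c e : Fin 4) : ℝ :=
  pd a (T c e) y - pd c (T a e) y + pd e (T a c) y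

/-- `ξ ∧ d T`. -/
noncomputable def tr (ξ : Fin 4 → ℝ) (T : Fin 4 → Fin 4 → Pt → ℝ) (y : Pt) : ℝ :=
  ξ 0 * d3 T y 1 2 3 - ξ 1 * d3 T y 0 2 3 + ξ 2 * d3 T y 0 1 3 - ξ 3 * d3 T y 0 1 2

variable {W K : Set Pt} {y : Pt} {f g : Pt → ℝ}

theorem dif (hW : IsOpen W) (h : ContDiffOn ℝ ∞ g W) (hy : y ∈ W) : DifferentiableAt ℝ g y :=
  (h.contDiffAt (hW.mem_nhds hy)).differentiableAt (by simp)

theorem pd_add (hf : DifferentiableAt ℝ f y) (hg : DifferentiableAt ℝ g y) (a : Fin 4) :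
    pd a (fun y => f y + g y) y = pd a f y + pd a g y := by
  unfold pd; rw [fderiv_fun_add hf hg]; rfl

theorem pd_sub (hf : DifferentiableAt ℝ f y) (hg : DifferentiableAt ℝ g y) (a : Fin 4) :
    pd a (fun y => f y - g y) y = pd a f y - pd a g y := by
  unfold pd; rw [fderiv_fun_sub hf hg]; rfl

theorem pd_neg (a : Fin 4) : pd a (fun y => -f y) y = -pd a f y := by
  unfold pd; rw [fderiv_fun_neg]; rfl

theorem pd_const (c : ℝ) (a : Fin 4) : pd a (fun _ => c) y = 0 := by simp [pd]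

theorem nul_eq_zero (hW : IsOpen W) (h : NulOn W f) (h0 : ∀ y ∈ W, 0 ≤ f y)
    (hg : ContinuousOn g W) (e : ∀ y ∈ W, f y = 0 → g y = 0) (hy : y ∈ W) : g y = 0 := by
  have m := hW.measurableSet
  have := (setIntegral_eq_zero_iff_of_nonneg_ae ((ae_restrict_iff' m).2 (Eventually.of_forall h0))
    h.1).1 h.2
  refine Measure.eqOn_open_of_ae_eq (μ := volume) (g := fun _ => 0) ?_ hW hg continuousOn_const hy
  filter_upwards [this, ae_restrict_mem m] with z hz hz' using e z hz' hz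

theorem int_on (hW : IsOpen W) (hK : IsCompact K) (hKW : K ⊆ W) (hf : ContinuousOn f W)
    (h0 : ∀ y ∈ W, y ∉ K → f y = 0) : IntegrableOn f W :=
  ((hf.mono hKW).integrableOn_compact hK).of_forall_sdiff_eq_zero hW.measurableSet
    fun y hy => h0 y hy.1 hy.2

theorem nul_fl (hW : IsOpen W) (hK : IsCompact K) (hKW : K ⊆ W) {F : Pt → ℝ}
    (hF : ContDiffOn ℝ ∞ F W) (h0 : ∀ y ∈ W, y ∉ K → F y = 0) {l : Fin 4 → Pt → ℝ}
    (hl : ∀ c, ContDiffOn ℝ ∞ (l c) W) {T : Fin 4 → Fin 4 → Pt → ℝ}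
    (hT : ∀ a c, ContDiffOn ℝ ∞ (T a c) W) :
    NulOn W fun y => w3 (gr F y) (fun c => l c y) (fun a c => T a c y) +
      F y * (wedge (d1 l y) (fun a c => T a c y) - tr (fun c => l c y) T y) := by
  have N : ∀ a c i j, NulOn W fun y => pd a F y * (l c y * T i j y) +
      F y * (pd a (l c) y * T i j y + l c y * pd a (T i j) y) := fun a c i j =>
    (nulOn_pd hW hK hKW (hF.mul ((hl c).mul (hT i j))) (fun y hy hy' => by
      rw [h0 y hy hy', zero_mul]) a).congr hW fun y hy => by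
      rw [pd_mul (dif hW hF hy) (dif hW ((hl c).mul (hT i j)) hy),
        pd_mul (dif hW (hl c) hy) (dif hW (hT i j) hy)]
  refine NulOn.congr hW (((((((N 0 1 2 3).sub (N 1 0 2 3)).sub ((N 0 2 1 3).sub (N 2 0 1 3))).add
    ((N 0 3 1 2).sub (N 3 0 1 2))).add ((N 2 3 0 1).sub (N 3 2 0 1))).sub
    ((N 1 3 0 2).sub (N 3 1 0 2))).add ((N 1 2 0 3).sub (N 2 1 0 3))) fun y _ => ?_
  simp only [w3, wedge, gr, d1, d3, tr]
  ring

theorem d1_gr (hW : IsOpen W) (h : ContDiffOn ℝ ∞ g W) (hy : y ∈ W) (a c : Fin 4) :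
    d1 (fun c => pd c g) y a c = 0 :=
  sub_eq_zero.2 (pd_comm (h.contDiffAt (hW.mem_nhds hy)) a c)

theorem dc_on (hW : IsOpen W) (h : ContDiffOn ℝ ∞ f W) (c : Fin 4) : ContDiffOn ℝ ∞ (dc f c) W := by
  fin_cases c
  exacts [(pd_on hW h 1).neg, pd_on hW h 0, (pd_on hW h 3).neg, pd_on hW h 2]

theorem t2_on {s : Pt → ℝ} (h : ContDiffOn ℝ ∞ s W) (a c : Fin 4) :
    ContDiffOn ℝ ∞ (fun y => t2 (s y) a c) W := by
  fin_cases a <;> fin_cases c <;> first | exact h | exact h.neg | exact contDiffOn_const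

theorem t3_on {s : Pt → ℝ} (h : ContDiffOn ℝ ∞ s W) (a c : Fin 4) :
    ContDiffOn ℝ ∞ (fun y => t3 (s y) a c) W := by
  fin_cases a <;> fin_cases c <;> first | exact h | exact contDiffOn_const

theorem tr_t {s : Pt → ℝ} (hs : ∀ a, pd a s y = s y * pd a f y) (ξ : Fin 4 → ℝ) :
    tr ξ (fun a c y => t2 (s y) a c) y = w3 ξ (fun c => dc f c y) (t3 (s y)) ∧
    tr ξ (fun a c y => t3 (s y) a c) y = -w3 ξ (fun c => dc f c y) (t2 (s y)) := by
  constructor <;>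
  simp only [tr, d3, w3, wedge, t2, t3, dc, Matrix.cons_val_zero, Matrix.cons_val_one,
    Matrix.cons_val, pd_neg, pd_const] <;>
  simp only [show ∀ a, pd a (fun y => s y) y = s y * pd a f y from hs] <;> ring

theorem d1_dc (hW : IsOpen W) (h : ContDiffOn ℝ ∞ f W) (hy : y ∈ W) (s : ℝ) :
    wedge (d1 (dc f) y) (t2 s) = 0 ∧ wedge (d1 (dc f) y) (t3 s) = 0 := by
  have e := pd_comm (h.contDiffAt (hW.mem_nhds hy))
  constructor <;>
  simp only [wedge, d1, t2, t3, dc, Matrix.cons_val_zero, Matrix.cons_val_one,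
    Matrix.cons_val, pd_neg, e 0 3, e 1 2, e 0 2, e 1 3] <;> ring

theorem nul_main (hW : IsOpen W) (hK : IsCompact K) (hKW : K ⊆ W) {F1 F2 F3 k1 k2 k3 s : Pt → ℝ}
    (sF1 : ContDiffOn ℝ ∞ F1 W) (sF2 : ContDiffOn ℝ ∞ F2 W) (sF3 : ContDiffOn ℝ ∞ F3 W)
    (z1 : ∀ y ∈ W, y ∉ K → F1 y = 0) (z2 : ∀ y ∈ W, y ∉ K → F2 y = 0)
    (z3 : ∀ y ∈ W, y ∉ K → F3 y = 0) (s1 : ContDiffOn ℝ ∞ k1 W) (s2 : ContDiffOn ℝ ∞ k2 W)
    (s3 : ContDiffOn ℝ ∞ k3 W) (ss : ContDiffOn ℝ ∞ s W) (sf : ContDiffOn ℝ ∞ f W)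
    (hs : ∀ y ∈ W, ∀ a, pd a s y = s y * pd a f y) {h : Fin 4 → Fin 4 → Pt → ℝ}
    (sh : ∀ a c, ContDiffOn ℝ ∞ (h a c) W) (hc : ∀ y ∈ W, ∀ ξ, tr ξ h y = 0) :
    NulOn W fun y => Sx (fun a c => h a c y) (s y) (gr F1 y)
      (fun a => pd a F2 y - F3 y * dc f a y) (fun a => pd a F3 y + F2 y * dc f a y) (gr k1 y)
      (fun a => pd a k2 y - k3 y * dc f a y) (fun a => pd a k3 y + k2 y * dc f a y) +
      (F2 y * k2 y + F3 y * k3 y) * wedge (d1 (dc f) y) (fun a c => h a c y) := by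
  have sp := pd_on hW s1
  have sq : ∀ a, ContDiffOn ℝ ∞ (fun y => pd a k2 y - k3 y * dc f a y) W := fun a =>
    (pd_on hW s2 a).sub (s3.mul (dc_on hW sf a))
  have st : ∀ a, ContDiffOn ℝ ∞ (fun y => pd a k3 y + k2 y * dc f a y) W := fun a =>
    (pd_on hW s3 a).add (s2.mul (dc_on hW sf a))
  refine NulOn.congr hW ((((nul_fl hW hK hKW sF1 z1 sq (t3_on ss)).sub
    (nul_fl hW hK hKW sF2 z2 sp (t3_on ss))).add ((nul_fl hW hK hKW sF2 z2 st sh).sub
    (nul_fl hW hK hKW sF3 z3 sq sh))).add ((nul_fl hW hK hKW sF3 z3 sp (t2_on ss)).sub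
    (nul_fl hW hK hKW sF1 z1 st (t2_on ss)))) fun y hy => ?_
  have dp : d1 (fun c => pd c k1) y = fun _ _ => 0 :=
    funext fun a => funext fun c => d1_gr hW s1 hy a c
  have dq : d1 (fun a y => pd a k2 y - k3 y * dc f a y) y = fun a c =>
      -(pd a k3 y * dc f c y - pd c k3 y * dc f a y) - k3 y * d1 (dc f) y a c := by
    funext a c
    have := d1_gr hW s2 hy a c
    simp only [d1, pd_sub (dif hW (pd_on hW s2 _) hy) (dif hW (s3.mul (dc_on hW sf _)) hy),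
      pd_mul (dif hW s3 hy) (dif hW (dc_on hW sf _) hy)] at this ⊢
    linear_combination this
  have dr : d1 (fun a y => pd a k3 y + k2 y * dc f a y) y = fun a c =>
      (pd a k2 y * dc f c y - pd c k2 y * dc f a y) + k2 y * d1 (dc f) y a c := by
    funext a c
    have := d1_gr hW s3 hy a c
    simp only [d1, pd_add (dif hW (pd_on hW s3 _) hy) (dif hW (s2.mul (dc_on hW sf _)) hy),
      pd_mul (dif hW s2 hy) (dif hW (dc_on hW sf _) hy)] at this ⊢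
    linear_combination this
  obtain ⟨e2, e3⟩ := d1_dc hW sf hy (s y)
  simp only [dp, dq, dr, (tr_t (hs y hy) _).1, (tr_t (hs y hy) _).2, hc y hy]
  simp only [Sx, w3, wedge, gr, t2, t3, Matrix.cons_val_zero, Matrix.cons_val_one,
    Matrix.cons_val] at e2 e3 ⊢
  linear_combination -F1 y * k3 y * e3 - F1 y * k2 y * e2

theorem tr_comb (hW : IsOpen W) (hy : y ∈ W) {k1 k2 k3 n : Pt → ℝ}
    {A B C R T : Fin 4 → Fin 4 → Pt → ℝ}
    (s1 : ContDiffOn ℝ ∞ k1 W) (s2 : ContDiffOn ℝ ∞ k2 W) (s3 : ContDiffOn ℝ ∞ k3 W)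
    (sn : ContDiffOn ℝ ∞ n W) (sA : ∀ a c, ContDiffOn ℝ ∞ (A a c) W)
    (sB : ∀ a c, ContDiffOn ℝ ∞ (B a c) W) (sC : ∀ a c, ContDiffOn ℝ ∞ (C a c) W)
    (sR : ∀ a c, ContDiffOn ℝ ∞ (R a c) W) (e : ∀ a c, a < c → ∀ z ∈ W,
      T a c z = k1 z * A a c z + k2 z * B a c z + k3 z * C a c z - n z * R a c z)
    (ξ : Fin 4 → ℝ) : tr ξ T y = w3 ξ (gr k1 y) (fun a c => A a c y) + k1 y * tr ξ A y +
      (w3 ξ (gr k2 y) (fun a c => B a c y) + k2 y * tr ξ B y) +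
      (w3 ξ (gr k3 y) (fun a c => C a c y) + k3 y * tr ξ C y) -
      (w3 ξ (gr n y) (fun a c => R a c y) + n y * tr ξ R y) := by
  have d : ∀ i a c, a < c → pd i (T a c) y = pd i k1 y * A a c y + k1 y * pd i (A a c) y +
      (pd i k2 y * B a c y + k2 y * pd i (B a c) y) +
      (pd i k3 y * C a c y + k3 y * pd i (C a c) y) -
      (pd i n y * R a c y + n y * pd i (R a c) y) := fun i a c hac => by
    rw [pd_congr (g := fun z => k1 z * A a c z + k2 z * B a c z + k3 z * C a c z - n z * R a c z)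
      (by filter_upwards [hW.mem_nhds hy] with z hz using e a c hac z hz),
      pd_sub (dif hW (((s1.mul (sA a c)).add (s2.mul (sB a c))).add (s3.mul (sC a c))) hy)
        (dif hW (sn.mul (sR a c)) hy),
      pd_add (dif hW ((s1.mul (sA a c)).add (s2.mul (sB a c))) hy) (dif hW (s3.mul (sC a c)) hy),
      pd_add (dif hW (s1.mul (sA a c)) hy) (dif hW (s2.mul (sB a c)) hy),
      pd_mul (dif hW s1 hy) (dif hW (sA a c) hy), pd_mul (dif hW s2 hy) (dif hW (sB a c) hy),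
      pd_mul (dif hW s3 hy) (dif hW (sC a c) hy), pd_mul (dif hW sn hy) (dif hW (sR a c) hy)]
  simp only [tr, d3, w3, wedge, gr, d _ 0 1 (by decide), d _ 0 2 (by decide), d _ 0 3 (by decide),
    d _ 1 2 (by decide), d _ 1 3 (by decide), d _ 2 3 (by decide)]
  ring

end Pool.Agent.DonKS
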