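import Pool.Agent.Lib.MP_2710d6_gt.KS.Var
import Pool.Agent.Lib.MP_2710d6_gt.HK.Strict

open MeasureTheory Set Filter Topology
open scoped Manifold ContDiff

namespace Pool.Agent.DonKS

open Pool.Agent.DonHK
open Pool.Agent.Don (wed)

theorem pd_exp {W : Set Pt} (hW : IsOpen W) {g : Pt → ℝ} (h : ContDiffOn ℝ ∞ g W) {y : Pt}
    (hy : y ∈ W) (a : Fin 4) : pd a (fun y => Real.exp (g y)) y = Real.exp (g y) * pd a g y := by
  unfold pd
  rw [(dif hW h hy).hasFDerivAt.exp.fderiv]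
  rfl

variable {M : Type*} [TopologicalSpace M] [ChartedSpace Pt M] {J : End1 M} {Ω ρ ζ τ : Form2 M}
  [IsManifold 𝓘(ℝ, Pt) ∞ M] [MeasurableSpace M] {μ : Measure M} [CompactSpace M] [BorelSpace M]
  [T2Space M]

theorem piece (h : IsKaehler J Ω) (hμ : IsVol Ω μ)
    (hs : ∀ p, ∀ y ∈ (chartAt Pt p).target, 0 ≤ scal Ω p y) (hρ : Closed2 ρ)
    (hp : ∀ x, 0 < quot Ω ρ ρ x) (hc : IsCritical J Ω μ ρ) {C : ℝ} (hC : ∀ x, quot Ω ρ ρ x ≤ C)
    {m : Form1 M} (hm : ∀ x v, NF (J x) (Ω x) v → ∀ c,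
      m x (v c) = wed (fun a => ((1 / 2 : ℝ) • df (nn J Ω ρ) x) (v a)) (ev (ρ x) v) c)
    {χ : M → ℝ} (sχ : Sm χ) (χ0 : ∀ x, 0 ≤ χ x) {p : M} (hχ : tsupport χ ⊆ (chartAt Pt p).source)
    {B : M → ℝ} (hB : ∀ x, B x =
      Real.exp (-C * nn J Ω ρ x) * (2 / quot Ω ρ ρ x) * quot Ω (w11 (df χ) m) ρ x) :
    Sm B ∧ 0 ≤ ∫ x, B x ∂μ ∧ (∫ x, B x ∂μ = 0 → ∀ x, χ x ≠ 0 →
      ∀ u, df (kk Ω ρ) x u = 0 ∧ df (nn J Ω ρ) x u = 0) := by
  have hW := (chartAt Pt p).open_target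
  obtain ⟨ss, sf, s2, s3, hs'⟩ := loc_on h hρ.sm hp p
  have S1 := sm_kk h hρ.sm hp
  have Sn := sm_nn h hρ.sm hp
  have s1 := sm_loc S1 p
  have sn := sm_loc Sn p
  have sc := sm_loc sχ p
  have cr := fun y hy => crit_loc h hμ hρ hp hc p (y := y) hy
  obtain ⟨i1, i2, i3⟩ := img (isClosed_tsupport χ).isCompact hχ
  have sC : ContDiffOn ℝ ∞ (fun y => -C * loc (nn J Ω ρ) p y) (chartAt Pt p).target :=
    contDiffOn_const.mul sn
  have sφ := sC.exp
  have z : ∀ g : Pt → ℝ, ∀ y ∈ (chartAt Pt p).target, y ∉ chartAt Pt p '' tsupport χ →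
      loc χ p y * g y = 0 := fun g y hy hy' => by
    rw [loc, image_eq_zero_of_notMem_tsupport (i3 y hy hy'), zero_mul]
  have N := nul_main hW i1 i2 (sc.mul (sφ.mul s1)) (sc.mul (sφ.mul s2)) (sc.mul (sφ.mul s3))
    (z _) (z _) (z _) s1 s2 s3 ss sf hs' (h.2.1.2.1 p) fun y hy => tr_closed h.2.1 p hy
  have B0 : ∀ x, x ∉ tsupport χ → B x = 0 := fun x hx => by
    rw [hB, quot_zero _ _ (α := w11 (df χ) m) (by ext u v; simp [w11_apply, df_out hx]), mul_zero]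
  have e1 : ∀ f : M → ℝ, Sm f → ∀ y ∈ (chartAt Pt p).target,
      (fun i => df f _ (frame p y i)) = gr (loc f p) y := fun f hf y hy =>
    funext fun i => df_frame hf p i hy
  have eB : ∀ y ∈ (chartAt Pt p).target, loc B p y * dens Ω p y =
      Real.exp (-C * loc (nn J Ω ρ) p y) * Sx (fun a c => co2 Ω p a c y) (sq Ω p y)
        (fun a => loc (kk Ω ρ) p y * gr (loc χ p) y a) (fun a => k2 Ω ρ p y * gr (loc χ p) y a)
        (fun a => k3 Ω ρ p y * gr (loc χ p) y a) (gr (loc (kk Ω ρ) p) y)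
        (fun a => pd a (k2 Ω ρ p) y - k3 Ω ρ p y * dc (hf Ω p) a y)
        (fun a => pd a (k3 Ω ρ p) y + k2 Ω ρ p y * dc (hf Ω p) a y) := fun y hy => by
    have b := (cr y hy).bd (gr (loc χ p) y)
    have nf := h.nf_loc p hy
    have q := nf.quot (h.2.1.1 _) (w11_alt (df χ) m _) (hρ.1 _)
    have k := hm _ _ nf
    have g : (fun i => ((1 / 2 : ℝ) • df (nn J Ω ρ) _) (frame p y i)) =
        fun a => 1 / 2 * pd a (loc (nn J Ω ρ) p) y :=
      funext fun i => congrArg (1 / 2 * ·) (df_frame Sn p i hy)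
    rw [ev_pc, ev_pm (hρ.1 _), g] at k
    have k' := ev_pc (df χ _) (frame p y) (uf (ev (Ω _) (frame p y)) √(co2 Ω p 0 1 y) √(dens Ω p y))
    rw [e1 χ sχ y hy] at k'
    generalize hw : w3 _ _ _ = w at b
    have q' : quot Ω (w11 (df χ) m) ρ ((chartAt Pt p).symm y) = w := by
      rw [q, ev_pm (hρ.1 _), ← hw, w3]
      congr 1
      funext a c
      rw [ev, w11_apply, k, k, congrFun k' a, congrFun k' c, mul_comm (wed _ _ a)]
      rfl
    have D : sq Ω p y ^ 2 = dens Ω p y := Real.sq_sqrt (h.herm p hy).1.le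
    have u0 := (hp ((chartAt Pt p).symm y)).ne'
    rw [loc, hB, q', ← D, mul_assoc, mul_comm w, ← b]
    simp only [loc]
    field_simp
  have sα := dc_on hW sf
  have sBd : ContDiffOn ℝ ∞ (fun y => loc B p y * dens Ω p y) (chartAt Pt p).target := by
    refine ContDiffOn.congr ?_ eB
    have a1 := pd_on hW s1
    have a2 := pd_on hW s2
    have a3 := pd_on hW s3
    have a4 := pd_on hW sc
    have a5 := h.2.1.2.1 p
    have a6 := t2_on ss
    have a7 := t3_on ss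
    simp only [Sx, w3, wedge, gr]
    fun_prop
  have sB : Sm B := sm_cut (isClosed_tsupport χ) hχ B0 ((sBd.div (dens_on h.2.1.sm p)
    fun y hy => (h.herm p hy).1.ne').congr fun y hy =>
      (mul_div_cancel_right₀ _ (h.herm p hy).1.ne').symm)
  obtain ⟨I1, I2⟩ := int_cut h hμ sB (isClosed_tsupport χ) hχ B0 fun _ _ => rfl
  set T := fun y => Sx (fun a c => co2 Ω p a c y) (sq Ω p y) _ _ _ _ _ _ + _ with hT
  have key : ∀ y ∈ (chartAt Pt p).target, 0 ≤ loc B p y * dens Ω p y - T y ∧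
      (loc B p y * dens Ω p y - T y = 0 → ∀ a, loc χ p y * pd a (loc (kk Ω ρ) p) y = 0 ∧
        loc χ p y * pd a (loc (nn J Ω ρ) p) y = 0) := fun y hy => by
    have φ0 := Real.exp_pos (-C * loc (nn J Ω ρ) p y)
    obtain ⟨j1, j2⟩ := (cr y hy).ineq φ0 (hC _) (fun _ => rfl) (fun _ => rfl) fun _ => rfl
    have dd : ∀ {k : Pt → ℝ}, ContDiffOn ℝ ∞ k (chartAt Pt p).target → ∀ a, pd a (fun y =>
        loc χ p y * (Real.exp (-C * loc (nn J Ω ρ) p y) * k y)) y =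
        Real.exp (-C * loc (nn J Ω ρ) p y) * (pd a (loc χ p) y * k y + loc χ p y *
          (-C * pd a (loc (nn J Ω ρ) p) y * k y + pd a k y)) := fun hk a => by
      rw [pd_mul (dif hW sc hy) (dif hW (sφ.mul hk) hy), pd_mul (dif hW sφ hy) (dif hW hk hy),
        pd_exp hW sC hy, pd_mul (differentiableAt_const _) (dif hW sn hy), pd_const]
      ring
    have r0 : 0 ≤ wedge (ric Ω p y) fun a c => co2 Ω p a c y := by
      have := mul_nonneg (hs p y hy) (h.herm p hy).1.le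
      rw [scal, div_mul_cancel₀ _ (h.herm p hy).1.ne'] at this
      linarith
    have c0 : 0 ≤ loc χ p y := χ0 _
    generalize hS : Sx (fun a c => co2 Ω p a c y) (sq Ω p y) _ _ _ _ _ _ = S at j1 j2
    have e : loc B p y * dens Ω p y - T y = loc χ p y * -S + loc χ p y *
        (Real.exp (-C * loc (nn J Ω ρ) p y) * (k2 Ω ρ p y ^ 2 + k3 Ω ρ p y ^ 2) *
          wedge (ric Ω p y) fun a c => co2 Ω p a c y) := by
      rw [eB y hy, hT, ← hS]
      simp only [Sx, w3, wedge, gr, dd s1, dd s2, dd s3, d1_hf]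
      ring
    have n1 : 0 ≤ loc χ p y * -S := mul_nonneg c0 j1
    have n2 := mul_nonneg c0 (mul_nonneg (mul_nonneg φ0.le
      (add_nonneg (sq_nonneg (k2 Ω ρ p y)) (sq_nonneg (k3 Ω ρ p y)))) r0)
    rw [e]
    refine ⟨add_nonneg n1 n2, fun k a => ?_⟩
    rcases mul_eq_zero.1 (show loc χ p y * -S = 0 by linarith) with k | k
    · simp [k]
    · obtain ⟨a1, a2⟩ := j2 (neg_eq_zero.1 k) a
      exact ⟨mul_eq_zero_of_right _ a1, mul_eq_zero_of_right _ (by linarith)⟩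
  have I3 : ∫ x, B x ∂μ = ∫ y in (chartAt Pt p).target, (loc B p y * dens Ω p y - T y) := by
    rw [integral_sub I1 N.1, N.2, sub_zero, I2]
  refine ⟨sB, I3 ▸ setIntegral_nonneg hW.measurableSet fun y hy => (key y hy).1, fun k x hx u => ?_⟩
  have N' : NulOn (chartAt Pt p).target fun y => loc B p y * dens Ω p y - T y :=
    ⟨I1.sub N.1, I3 ▸ k⟩
  have hx' := hχ (subset_tsupport _ hx)
  have hy := (chartAt Pt p).map_source hx'
  rw [← (chartAt Pt p).left_inv hx'] at hx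
  revert u
  rw [← (chartAt Pt p).left_inv hx']
  generalize chartAt Pt p x = y at *
  intro u
  obtain ⟨w, rfl⟩ := (frame_lin p hy).1 u
  have Z : ∀ f : M → ℝ, Sm f → (∀ a, ∀ y ∈ (chartAt Pt p).target, loc B p y * dens Ω p y - T y = 0 →
      loc χ p y * pd a (loc f p) y = 0) → df f _ (∑ a, w a • frame p y a) = 0 := fun f hf k => by
    rw [map_sum]
    refine Finset.sum_eq_zero fun a _ => ?_
    have := nul_eq_zero hW N' (fun y hy => (key y hy).1)
      (sc.mul (pd_on hW (sm_loc hf p) a)).continuousOn (k a) hy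
    rw [map_smul, congrFun (e1 f hf y hy) a, gr, (mul_eq_zero.1 this).resolve_left hx, smul_zero]
  exact ⟨Z _ S1 fun a y hy k => ((key y hy).2 k a).1, Z _ Sn fun a y hy k => ((key y hy).2 k a).2⟩

theorem df_zero (h : IsKaehler J Ω) (hμ : IsVol Ω μ)
    (hs : ∀ p, ∀ y ∈ (chartAt Pt p).target, 0 ≤ scal Ω p y) (hρ : Closed2 ρ)
    (hp : ∀ x, 0 < quot Ω ρ ρ x) (hc : IsCritical J Ω μ ρ) (x : M) (u : Tan x) :
    df (kk Ω ρ) x u = 0 ∧ df (nn J Ω ρ) x u = 0 := by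
  obtain ⟨C, hC⟩ := isCompact_univ.exists_bound_of_continuousOn
    (sm_quot h.nd hρ.sm hρ.sm).continuous.continuousOn
  choose m hm using fun x => mu_ex (h.2.1.1 x) (hρ.1 x) (half_pos (hp x)).ne'
    (fun v hv => by rw [hv.quot (h.2.1.1 x) (hρ.1 x) (hρ.1 x)]) (h.nf x)
    ((1 / 2 : ℝ) • df (nn J Ω ρ) x)
  obtain ⟨χ, hχ⟩ := SmoothPartitionOfUnity.exists_isSubordinate_chartAt_source 𝓘(ℝ, Pt) M
  have P := fun i => piece h hμ hs hρ hp hc (fun x => (le_abs_self _).trans (hC x (mem_univ x))) hm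
    (χ i).contMDiff (χ.nonneg i) (hχ i) fun _ => rfl
  have key : ∀ s : Finset M, Sm (fun x => ∑ i ∈ s, χ i x) ∧
      ∀ x, quot Ω (w11 (df fun x => ∑ i ∈ s, χ i x) m) ρ x =
        ∑ i ∈ s, quot Ω (w11 (df (χ i)) m) ρ x := by
    intro s
    classical
    induction s using Finset.induction_on with
    | empty => exact ⟨contMDiff_const, fun x => (quot_w11 Ω ρ (l1 := m) (l2 := m) m 0 0 fun u => by
        simp [df_const]).trans (by simp)⟩
    | insert i s hi ih =>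
      simp only [Finset.sum_insert hi]
      have si : Sm (χ i) := (χ i).contMDiff
      refine ⟨si.add ih.1, fun x => ?_⟩
      rw [quot_w11 Ω ρ (l1 := df (χ i)) (l2 := df fun x => ∑ j ∈ s, χ j x) m 1 1
        fun u => by rw [df_add si ih.1]; ring, ih.2]
      ring
  have hf := χ.locallyFinite.finite_nonempty_of_compact
  have e : (fun x => ∑ i ∈ hf.toFinset, χ i x) = fun _ => 1 := by
    ext x
    rw [← χ.sum_eq_one (mem_univ x), finsum_eq_sum_of_support_subset]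
    intro i hi
    simp only [Finite.coe_toFinset]
    exact ⟨x, hi⟩
  have k := (key hf.toFinset).2
  rw [e] at k
  have Z := (Finset.sum_eq_zero_iff_of_nonneg (s := hf.toFinset) fun i _ => (P i).2.1).1 (by
    have q : ∀ x, quot Ω (w11 (df fun _ => 1) m) ρ x = 0 := fun x =>
      quot_zero _ _ (by ext u v; simp [w11_apply, df_const])
    rw [← integral_finsetSum _ fun i _ => hμ.int (P i).1.continuous]
    simp only [← Finset.mul_sum, ← k, q]
    simp)
  obtain ⟨i, hi, hx⟩ := Finset.exists_ne_zero_of_sum_ne_zero (congrFun e x ▸ one_ne_zero :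
    ∑ i ∈ hf.toFinset, χ i x ≠ 0)
  exact (P i).2.2 (Z i hi) x hx u

theorem nul_ex (h : IsKaehler J Ω) (hμ : IsVol Ω μ) (hζ : Exact ζ) (hτ : Closed2 τ) :
    Nul μ (quot Ω ζ τ) := by
  obtain ⟨l, hl⟩ := hζ
  have s := sm_quot h.nd (IsD.sm hl) hτ.sm
  exact ⟨s, hμ.int s.continuous, stokes h.nd hμ hl hτ⟩

omit [MeasurableSpace M] [CompactSpace M] [BorelSpace M] [T2Space M] in
theorem IsKaehler.pt (h : IsKaehler J Ω) (x : M) : ∃ v : Fin 4 → Tan x, NF (J x) (Ω x) v ∧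
    (∀ α β : Form2 M, (α x).IsAlt → (β x).IsAlt →
      quot Ω α β x = wedge (ev (α x) v) (ev (β x) v)) ∧
    (∀ α : Form2 M, (α x).IsAlt → quot Ω α Ω x = wedge (ev (α x) v) (std 0)) ∧
    (∀ α β : Form2 M, (α x).IsAlt → (β x).IsAlt → quot Ω α (fun x => anti (J x) (β x)) x =
      (wedge (ev (α x) v) (std 1) * wedge (ev (β x) v) (std 1) +
        wedge (ev (α x) v) (std 2) * wedge (ev (β x) v) (std 2)) / 2) ∧
    ∀ α : Form2 M, (α x).IsAlt → sdTwo J Ω α x = wedge (ev (α x) v) (std 0) ^ 2 +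
      wedge (ev (α x) v) (std 1) ^ 2 + wedge (ev (α x) v) (std 2) ^ 2 := by
  obtain ⟨v, hv⟩ := h.nf x
  have a := h.2.1.1 x
  have q0 : ∀ α : Form2 M, (α x).IsAlt → quot Ω α Ω x = wedge (ev (α x) v) (std 0) :=
    fun α hα => by rw [hv.quot a hα a, hv.wedge, wedge_std0]
  refine ⟨v, hv, fun _ _ => hv.quot a, q0, fun α β hα hβ => ?_, fun α hα => ?_⟩
  · obtain ⟨a1, a2, a3, a4, a5, a6⟩ := ev_anti' hv.cx hβ
    rw [hv.quot a hα (anti_alt hβ), wedge_std1, wedge_std1, wedge_std2, wedge_std2]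
    simp only [wedge, a1, a2, a3, a4, a5, a6]
    ring
  · obtain ⟨a1, a2, a3, a4, a5, a6⟩ := ev_anti' hv.cx hα
    rw [sdTwo, q0 α hα, hv.quot a (anti_alt hα) (anti_alt hα), wedge_std1, wedge_std2]
    simp only [wedge, a1, a2, a3, a4, a5, a6]
    ring

/-- A critical point is the strict absolute minimum of the energy in its class. -/
theorem strict_min [ConnectedSpace M] (h : IsKaehler J Ω) (hμ : IsVol Ω μ)
    (hs : ∀ p, ∀ y ∈ (chartAt Pt p).target, 0 ≤ scal Ω p y) (hρ : Closed2 ρ)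
    (hp : ∀ x, 0 < quot Ω ρ ρ x) (hc : IsCritical J Ω μ ρ) (hτ : Closed2 τ)
    (ht : ∀ x, 0 < quot Ω τ τ x) (he : Exact (τ - ρ)) (hne : τ ≠ ρ) :
    energy J Ω μ ρ < energy J Ω μ τ := by
  choose v hv hq q0 qa qs using h.pt
  obtain ⟨y⟩ : Nonempty M := inferInstance
  have cn := fun x => const_of_df (sm_nn h hρ.sm hp)
    (fun x u => (df_zero h hμ hs hρ hp hc x u).2) x y
  have n := nul_ex h hμ he hρ
  have n' := nul_ex h hμ he hτ
  have sζ : Sm2 (τ - ρ) := he.elim fun _ hl => IsD.sm hl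
  have sq := sm_quot h.nd sζ (sm_th h hρ.sm hp)
  have E : Nul μ (quot Ω (τ - ρ) (th J Ω ρ)) := ⟨sq, hμ.int sq.continuous, by
    have := (hasDerivAt_energy h hμ hρ.sm hp sζ).unique (hc _ he)
    rw [integral_const_mul] at this
    linarith⟩
  have N := (E.cmul 2).add ((n.sub n').cmul (nn J Ω ρ y))
  have sE : ∀ {α : Form2 M}, Closed2 α → (∀ x, 0 < quot Ω α α x) →
      Sm fun x => sdTwo J Ω α x / quot Ω α α x := fun hα ha =>
    (((sm_quot h.nd hα.sm h.2.1.sm).pow 2).add (contMDiff_const.mul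
      (sm_quot h.nd (h.sm_anti hα.sm) (h.sm_anti hα.sm)))).div₀ (sm_quot h.nd hα.sm hα.sm)
      fun x => (ha x).ne'
  have iρ := hμ.int (sE hρ hp).continuous
  have iτ := hμ.int (sE hτ ht).continuous
  have sD := ((sE hτ ht).sub (sE hρ hp)).sub N.1
  let c : M → Fin 3 → ℝ := fun x i => wedge (ev (ρ x) (v x)) (std i) / quot Ω ρ ρ x
  let F : M → ℝ := fun x =>
    (∑ i, (wedge (ev (τ x) (v x)) (std i) - c x i * quot Ω τ τ x) ^ 2) / quot Ω τ τ x
  have e : ∀ x, sdTwo J Ω τ x / quot Ω τ τ x - sdTwo J Ω ρ x / quot Ω ρ ρ x -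
      (2 * quot Ω (τ - ρ) (th J Ω ρ) x +
        nn J Ω ρ y * (quot Ω (τ - ρ) ρ x - quot Ω (τ - ρ) τ x)) = F x := fun x => by
    have := (hp x).ne'
    have := (ht x).ne'
    rw [← cn x, quot_th]
    simp only [F, c, quot_sub, Fin.sum_univ_three, quot_comm _ ρ τ, nn, kk, qs x _ (hρ.1 x),
      qs x _ (hτ.1 x), q0 x _ (hρ.1 x), q0 x _ (hτ.1 x), qa x _ _ (hρ.1 x) (hρ.1 x),
      qa x _ _ (hτ.1 x) (hρ.1 x)]
    field_simp
    ring
  have p : ∀ x, 0 ≤ F x := fun x => div_nonneg (Finset.sum_nonneg fun _ _ => sq_nonneg _) (ht x).le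
  have I : ∫ x, F x ∂μ = energy J Ω μ τ - energy J Ω μ ρ := by
    simp only [← e]
    exact (integral_sub (iτ.sub iρ) N.2.1).trans
      (by rw [N.2.2, sub_zero]; exact integral_sub iτ iρ)
  refine sub_pos.1 (I ▸ lt_of_le_of_ne (integral_nonneg p) fun z => hne ?_)
  have ND : Nul μ F := by
    have s : Sm _ := (funext e) ▸ sD
    exact ⟨s, hμ.int s.continuous, z.symm⟩
  have qρ := fun x => hq x _ _ (hρ.1 x) (hρ.1 x)
  have qτ := fun x => hq x _ _ (hτ.1 x) (hτ.1 x)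
  have qm := fun x => hq x _ _ (hρ.1 x) (hτ.1 x)
  have P := fun x => cone_pt (A := ev (ρ x) (v x)) (B := ev (τ x) (v x)) (c := c x)
    (qρ x ▸ hp x) (qτ x ▸ ht x) (fun i => by rw [← qρ, div_mul_cancel₀ _ (hp x).ne'])
    fun i => by
      have := (div_eq_zero_iff.1 (ND.eq_zero hμ p x)).resolve_right (ht x).ne'
      rw [← qτ]
      exact sub_eq_zero.1 (pow_eq_zero_iff two_ne_zero |>.1
        ((Finset.sum_eq_zero_iff_of_nonneg fun _ _ => sq_nonneg _).1 this i (Finset.mem_univ i)))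
  have K : Nul μ fun x => 2 * wedge (ev (ρ x) (v x)) (ev (τ x) (v x)) -
      wedge (ev (ρ x) (v x)) (ev (ρ x) (v x)) - wedge (ev (τ x) (v x)) (ev (τ x) (v x)) := by
    convert n.sub n' using 2 with x
    rw [quot_sub, quot_sub, quot_comm _ τ ρ, qρ, qτ, qm]
    ring
  funext x
  obtain ⟨e01, e02, e03, e12, e13, e23⟩ := (P x).2 (K.eq_zero hμ (fun x => (P x).1) x)
  ext u w
  obtain ⟨a, rfl⟩ := (hv x).span u
  obtain ⟨b, rfl⟩ := (hv x).span w
  unfold ev at e01 e02 e03 e12 e13 e23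
  rw [ev_exp (hρ.1 x), ev_exp (hτ.1 x), e01, e02, e03, e12, e13, e23]

omit [T2Space M] in
theorem crit_self (h : IsKaehler J Ω) (hμ : IsVol Ω μ) :
    (∀ x, 0 < quot Ω Ω Ω x) ∧ IsCritical J Ω μ Ω := by
  choose v hv hq q0 qa qs using h.pt
  have a := h.2.1.1
  have w0 : ∀ x, wedge (ev (Ω x) (v x)) (std 0) = 2 := fun x => by
    rw [wedge_std0, (hv x).b01, (hv x).b23]; norm_num
  have w1 : ∀ x, wedge (ev (Ω x) (v x)) (std 1) = 0 := fun x => by
    rw [wedge_std1, (hv x).b02, (hv x).b13]; norm_num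
  have w2 : ∀ x, wedge (ev (Ω x) (v x)) (std 2) = 0 := fun x => by
    rw [wedge_std2, (hv x).b03, (hv x).b12]; norm_num
  have hp : ∀ x, 0 < quot Ω Ω Ω x := fun x => by rw [q0 x _ (a x), w0]; norm_num
  refine ⟨hp, fun ζ ⟨l, hl⟩ => ?_⟩
  convert hasDerivAt_energy h hμ h.2.1.sm hp (IsD.sm hl)
  simp only [quot_th, nn, kk, qs _ _ (a _), q0 _ _ (a _), qa _ _ _ (hl.1 _) (a _), w0, w1, w2]
  norm_num

omit [IsManifold 𝓘(ℝ, Pt) ∞ M] [MeasurableSpace M] [CompactSpace M] [BorelSpace M] [T2Space M] in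
theorem closed_lin (hρ : Closed2 ρ) {l : Form1 M} (hl : IsD l ζ) (t : ℝ) : Closed2 (ρ + t • ζ) := by
  have e : ∀ p a c, co2 (ρ + t • ζ) p a c = fun y => co2 ρ p a c y + t * co2 ζ p a c y :=
    fun _ _ _ => rfl
  refine ⟨fun x u => ?_, fun p a c => (hρ.2.1 p a c).add (contDiffOn_const.mul (hl.sm.2 p a c)),
    fun p a c i y hy => ?_⟩
  · change ρ x u u + t * ζ x u u = 0
    rw [hρ.1 x u, hl.1 x u]; ring
  have hW := (chartAt Pt p).open_target
  have d : ∀ i a c, pd i (co2 (ρ + t • ζ) p a c) y = pd i (co2 ρ p a c) y +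
      t * (pd i (pd a (co1 l p c)) y - pd i (pd c (co1 l p a)) y) := fun i a c => by
    rw [e, pd_add (dif_tgt (hρ.2.1 p a c) hy) (dif_tgt (contDiffOn_const.mul (hl.sm.2 p a c)) hy),
      pd_mul (differentiableAt_const _) (dif_tgt (hl.sm.2 p a c) hy), pd_const,
      pd_congr (f := co2 ζ p a c) (by
        filter_upwards [hW.mem_nhds hy] with z hz using hl.2.2 p a c z hz),
      pd_sub (dif_tgt (pd_on hW (hl.2.1 p c) a) hy) (dif_tgt (pd_on hW (hl.2.1 p a) c) hy)]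
    ring
  have k := fun c => pd_comm (at_tgt (hl.2.1 p c) hy)
  rw [d, d, d, k i a c, k c a i, k a c i]
  linear_combination hρ.2.2 p a c i y hy

omit [T2Space M] in
theorem crit_of_min (h : IsKaehler J Ω) (hμ : IsVol Ω μ) (hρ : Closed2 ρ)
    (hp : ∀ x, 0 < quot Ω ρ ρ x) (hm : ∀ τ, Closed2 τ → (∀ x, 0 < quot Ω τ τ x) → Exact (τ - ρ) →
      τ ≠ ρ → energy J Ω μ ρ < energy J Ω μ τ) : IsCritical J Ω μ ρ := by
  rintro ζ ⟨l, hl⟩
  have d := hasDerivAt_energy h hμ hρ.sm hp (IsD.sm hl)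
  have c0 := (sm_quot h.nd hρ.sm hρ.sm).continuous
  have c1 := (sm_quot h.nd (IsD.sm hl) hρ.sm).continuous
  have c2 := (sm_quot h.nd (IsD.sm hl) (IsD.sm hl)).continuous
  have ev : ∀ᶠ t : ℝ in 𝓝 0, ∀ x ∈ univ,
      0 < quot Ω ρ ρ x + t * (2 * quot Ω ζ ρ x) + t ^ 2 * quot Ω ζ ζ x :=
    isCompact_univ.eventually_forall_of_forall_eventually fun x _ =>
      (show Continuous fun z : ℝ × M => quot Ω ρ ρ z.2 + z.1 * (2 * quot Ω ζ ρ z.2) +
        z.1 ^ 2 * quot Ω ζ ζ z.2 by fun_prop).continuousAt.eventually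
        (lt_mem_nhds (by simpa using hp x))
  refine (IsLocalMin.hasDerivAt_eq_zero ?_ d) ▸ d
  filter_upwards [ev] with t ht
  change energy J Ω μ (ρ + (0 : ℝ) • ζ) ≤ energy J Ω μ (ρ + t • ζ)
  rw [zero_smul, add_zero]
  by_cases e : ρ + t • ζ = ρ
  · rw [e]
  refine (hm _ (closed_lin hρ hl t) (fun x => ?_) ⟨fun x => t • l x, ?_⟩ e).le
  · rw [quot_add, quot_smul, quot_comm _ ρ, quot_comm _ ζ, quot_add, quot_smul, quot_add,
      quot_smul, quot_comm _ ρ ζ]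
    linarith [ht x (mem_univ x)]
  · change IsD _ _
    convert IsD.mul hl (f := fun _ => t) contMDiff_const using 1
    ext x u v
    simp [w11_apply, df_const]

end Pool.Agent.DonKS
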