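import Pool.Agent.Lib.MP_2710d6_gt.KS.Loc

open MeasureTheory Set Filter Topology
open scoped Manifold ContDiff

namespace Pool.Agent.DonKS

open Pool.Agent.DonHK

variable {M : Type*} [TopologicalSpace M] [ChartedSpace Pt M] {J : End1 M} {Ω ρ ζ Θ : Form2 M}

theorem pt_ind {P : M → Prop} (h : ∀ p, ∀ y ∈ (chartAt Pt p).target, P ((chartAt Pt p).symm y))
    (x : M) : P x := by
  have := h x _ (mem_chart_target Pt x)
  rwa [(chartAt Pt x).left_inv (mem_chart_source Pt x)] at this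

theorem NF.quot {x : M} {v : Fin 4 → Tan x} (h : NF (J x) (Ω x) v) (hΩ : (Ω x).IsAlt)
    {α β : Form2 M} (hα : (α x).IsAlt) (hβ : (β x).IsAlt) :
    quot Ω α β x = DonHK.wedge (ev (α x) v) (ev (β x) v) := by
  have w2 : DonHK.wedge (ev (Ω x) v) (ev (Ω x) v) = 2 := by
    rw [h.wedge, h.b01, h.b23]; norm_num
  have h1 := wedge_fr hΩ hΩ v
  rw [w2] at h1
  rw [quot_ev hΩ hα hβ v (mul_ne_zero_iff.1 (h1 ▸ two_ne_zero)).1, w2]
  simp

variable [IsManifold 𝓘(ℝ, Pt) ∞ M]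

theorem frame_lin (p : M) {y : Pt} (hy : y ∈ (chartAt Pt p).target) :
    (∀ u, ∃ z : Fin 4 → ℝ, u = ∑ a, z a • frame p y a) ∧
      ∀ z : Fin 4 → ℝ, ∑ a, z a • frame p y a = 0 → z = 0 := by
  have h1 := (mdifferentiable_chart (I := 𝓘(ℝ, Pt)) p).comp_symm_deriv hy
  let Q : Pt →L[ℝ] Pt := mfderiv 𝓘(ℝ, Pt) 𝓘(ℝ, Pt) (chartAt Pt p).symm y
  let P : Pt →L[ℝ] Pt := mfderiv 𝓘(ℝ, Pt) 𝓘(ℝ, Pt) (chartAt Pt p) ((chartAt Pt p).symm y)
  have h2 : ∀ z, P (Q z) = z := fun z => congrArg (fun L : Pt →L[ℝ] Pt => L z) h1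
  have h3 : ∀ z : Pt, Q z = ∑ a, z a • frame p y a := fun z => by
    have : z = ∑ i, z i • (Pi.single i 1 : Pt) := by
      ext c
      simp [Finset.sum_apply, Pi.single_apply]
    conv_lhs => rw [this, map_sum]
    simp only [map_smul]
    rfl
  have h4 : Function.Injective Q.toLinearMap := Function.LeftInverse.injective (g := P) h2
  refine ⟨fun u => ?_, fun z hz => ?_⟩
  · obtain ⟨z, hz⟩ := LinearMap.injective_iff_surjective.1 h4 u
    exact ⟨z, hz.symm.trans (h3 z)⟩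
  · rw [← h2 z, h3, hz]
    exact map_zero P

theorem IsKaehler.herm (h : IsKaehler J Ω) (p : M) {y : Pt} (hy : y ∈ (chartAt Pt p).target) :
    0 < dens Ω p y ∧ Herm (ev (Ω _) (frame p y)) √(co2 Ω p 0 1 y) √(dens Ω p y) := by
  obtain ⟨c0, c1, c2, c3⟩ := h.1 p y hy
  obtain ⟨k, k'⟩ := h.2.2 ((chartAt Pt p).symm y)
  have a := h.2.1.1 ((chartAt Pt p).symm y)
  have l := (frame_lin p hy).2
  change 0 < wedge (ev _ (frame p y)) (ev _ (frame p y)) / 2 ∧ Herm _ √(ev _ (frame p y) 0 1)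
    √(wedge (ev _ (frame p y)) (ev _ (frame p y)) / 2)
  generalize frame p y = v at *
  generalize Ω _ = B at *
  generalize J _ = j at *
  have h13 : ev B v 1 3 = ev B v 0 2 := by rw [ev, ← c0, ← c2, k]; rfl
  have h12 : ev B v 1 2 = -ev B v 0 3 := by
    have := k (v 0) (v 3)
    rw [c0, c3, map_neg] at this
    exact neg_eq_iff_eq_neg.1 this
  have P : ∀ z : Fin 4 → ℝ, z ≠ 0 → 0 < B (∑ a, z a • v a)
      (∑ a, (![-z 1, z 0, -z 3, z 2] : Fin 4 → ℝ) a • v a) := fun z hz => by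
    convert k' _ fun e => hz (l z e) using 2
    simp only [Fin.sum_univ_four, map_add, map_smul, c0, c1, c2, c3, Matrix.cons_val_zero,
      Matrix.cons_val_one, Matrix.cons_val]
    module
  have h01 : 0 < ev B v 0 1 := by
    have := P ![1, 0, 0, 0] fun e => one_ne_zero (congrFun e 0)
    rw [ev_exp a] at this
    simpa [ev] using this
  have hD : 0 < wedge (ev B v) (ev B v) / 2 := by
    have := P ![-ev B v 0 3, -ev B v 0 2, ev B v 0 1, 0] fun e => h01.ne' (congrFun e 2)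
    rw [ev_exp a] at this
    change 0 < _ * ev B v 0 1 + _ * ev B v 0 2 + _ * ev B v 0 3 + _ * ev B v 1 2 +
      _ * ev B v 1 3 + _ * ev B v 2 3 at this
    simp only [Matrix.cons_val_zero, Matrix.cons_val_one, Matrix.cons_val, h13, h12] at this
    refine pos_of_mul_pos_left (b := ev B v 0 1) ?_ h01.le
    simp only [wedge, h13, h12]
    linarith
  exact ⟨hD, (Real.sqrt_pos.2 h01).ne', (Real.sqrt_pos.2 hD).ne', (Real.sq_sqrt h01.le).symm, h13,
    h12, (Real.sq_sqrt hD.le).symm⟩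

theorem IsKaehler.nf_loc (h : IsKaehler J Ω) (p : M) {y : Pt} (hy : y ∈ (chartAt Pt p).target) :
    NF (J _) (Ω _) fun a => ∑ i, uf (ev (Ω _) (frame p y)) √(co2 Ω p 0 1 y) √(dens Ω p y) a i •
      frame p y i :=
  nf_of (h.1 p y hy) (h.2.1.1 _) (h.herm p hy).2 (frame_lin p hy).1

theorem IsKaehler.nf (h : IsKaehler J Ω) (x : M) : ∃ v, NF (J x) (Ω x) v :=
  pt_ind (P := fun x => ∃ v, NF (J x) (Ω x) v) (fun p _ hy => ⟨_, h.nf_loc p hy⟩) x

theorem IsKaehler.nd (h : IsKaehler J Ω) : Nd Ω := by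
  refine ⟨h.2.1.sm, fun x h0 => ?_⟩
  obtain ⟨v, hv⟩ := h.nf x
  have h1 := wedge_fr (h.2.1.1 x) (h.2.1.1 x) v
  rw [hv.wedge, hv.b01, hv.b23] at h1
  change _ = _ * wedge (mat Ω x) (mat Ω x) at h1
  rw [h0] at h1
  norm_num at h1

omit [IsManifold 𝓘(ℝ, Pt) ∞ M] in
theorem IsKaehler.sm_anti (h : IsKaehler J Ω) (hρ : Sm2 ρ) : Sm2 fun x => anti (J x) (ρ x) :=
  ⟨fun x => anti_alt (hρ.1 x), fun p a c => (((hρ.2 p a c).sub ((contDiffOn_const
    (c := sg a * sg c)).mul (hρ.2 p (jx a) (jx c)))).div_const 2).congr fun y hy =>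
      ev_anti (h.1 p y hy) a c⟩

theorem IsKaehler.quot_anti (h : IsKaehler J Ω) (hρ : Sm2 ρ) (hζ : Sm2 ζ) (x : M) :
    quot Ω (fun x => anti (J x) (ζ x)) (fun x => anti (J x) (ρ x)) x =
      quot Ω ζ (fun x => anti (J x) (ρ x)) x := by
  obtain ⟨v, hv⟩ := h.nf x
  rw [hv.quot (h.2.1.1 x) (anti_alt (hζ.1 x)) (anti_alt (hρ.1 x)),
    hv.quot (h.2.1.1 x) (hζ.1 x) (anti_alt (hρ.1 x))]
  obtain ⟨a1, a2, a3, a4, a5, a6⟩ := ev_anti' hv.cx (hρ.1 x)
  obtain ⟨b1, b2, b3, b4, b5, b6⟩ := ev_anti' hv.cx (hζ.1 x)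
  simp only [wedge, a1, a2, a3, a4, a5, a6, b1, b2, b3, b4, b5, b6]
  ring

theorem sm_cut {F : M → ℝ} {K : Set M} (hK : IsClosed K) {p : M} (hp : K ⊆ (chartAt Pt p).source)
    (h0 : ∀ x, x ∉ K → F x = 0) (h : ContDiffOn ℝ ∞ (loc F p) (chartAt Pt p).target) : Sm F := by
  intro x
  by_cases hx : x ∈ (chartAt Pt p).source
  · have hs := (chartAt Pt p).open_source.mem_nhds hx
    have h1 : ContMDiffAt 𝓘(ℝ, Pt) 𝓘(ℝ, Pt) ∞ (chartAt Pt p) x := contMDiffOn_chart.contMDiffAt hs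
    refine ((at_tgt h ((chartAt Pt p).map_source hx)).contMDiffAt.comp x h1).congr_of_eventuallyEq ?_
    filter_upwards [hs] with x hx
    simp [loc, (chartAt Pt p).left_inv hx]
  · refine (contMDiffAt_const (c := 0)).congr_of_eventuallyEq ?_
    filter_upwards [hK.isOpen_compl.mem_nhds fun k => hx (hp k)] with z hz using h0 z hz

omit [IsManifold 𝓘(ℝ, Pt) ∞ M] in
theorem img {K : Set M} (hK : IsCompact K) {p : M} (hp : K ⊆ (chartAt Pt p).source) :
    IsCompact (chartAt Pt p '' K) ∧ chartAt Pt p '' K ⊆ (chartAt Pt p).target ∧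
      ∀ y ∈ (chartAt Pt p).target, y ∉ chartAt Pt p '' K → (chartAt Pt p).symm y ∉ K :=
  ⟨hK.image_of_continuousOn ((chartAt Pt p).continuousOn.mono hp),
    image_subset_iff.2 fun _ hx => (chartAt Pt p).map_source (hp hx),
    fun _ hy hy' k => hy' ⟨_, k, (chartAt Pt p).right_inv hy⟩⟩

omit [IsManifold 𝓘(ℝ, Pt) ∞ M] in
theorem dens_on (h : Sm2 Ω) (p : M) : ContDiffOn ℝ ∞ (dens Ω p) (chartAt Pt p).target :=
  (wedge_on h h p).div_const 2

omit [IsManifold 𝓘(ℝ, Pt) ∞ M] in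
theorem df_out {F : M → ℝ} {x : M} (hx : x ∉ tsupport F) (u : Tan x) : df F x u = 0 := by
  rw [df_congr (g := fun _ => 0) (notMem_tsupport_iff_eventuallyEq.1 hx), df_const]

variable [MeasurableSpace M] {μ : Measure M} [CompactSpace M] [BorelSpace M] [T2Space M]

omit [BorelSpace M] [T2Space M] in
theorem int_cut (h : IsKaehler J Ω) (hμ : IsVol Ω μ) {F : M → ℝ} (hF : Sm F) {K : Set M}
    (hK : IsClosed K) {p : M} (hp : K ⊆ (chartAt Pt p).source) (h0 : ∀ x, x ∉ K → F x = 0)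
    {g : Pt → ℝ} (e : ∀ y ∈ (chartAt Pt p).target, loc F p y * dens Ω p y = g y) :
    IntegrableOn g (chartAt Pt p).target ∧ ∫ x, F x ∂μ = ∫ y in (chartAt Pt p).target, g y := by
  have hW := (chartAt Pt p).open_target
  obtain ⟨i1, i2, i3⟩ := img hK.isCompact hp
  refine ⟨(int_on hW i1 i2 ((sm_loc hF p).mul (dens_on h.2.1.sm p)).continuousOn
    fun y hy hy' => ?_).congr_fun e hW.measurableSet, ?_⟩
  · rw [loc, h0 _ (i3 y hy hy'), zero_mul]
  · rw [hμ.2.2 p F hF.continuous ((closure_minimal (fun x hx => by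
      by_contra hx'
      exact hx (h0 x hx')) hK).trans hp)]
    refine setIntegral_congr_fun hW.measurableSet fun y hy => ?_
    rw [← e y hy]
    exact congrArg _ (abs_of_pos (h.herm p hy).1)

omit [BorelSpace M] in
theorem weak_closed (h : IsKaehler J Ω) (hμ : IsVol Ω μ) (hΘ : Sm2 Θ)
    (hc : ∀ ζ, Exact ζ → ∫ x, quot Ω ζ Θ x ∂μ = 0) (p : M) {y : Pt}
    (hy : y ∈ (chartAt Pt p).target) (ξ : Fin 4 → ℝ) : tr ξ (co2 Θ p) y = 0 := by
  have hW := (chartAt Pt p).open_target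
  obtain ⟨χ, -, hχ⟩ := (SmoothBumpFunction.nhds_basis_tsupport (I := 𝓘(ℝ, Pt))
    ((chartAt Pt p).symm y)).mem_iff.1
    ((chartAt Pt p).open_source.mem_nhds ((chartAt Pt p).map_target hy))
  have sχ : Sm χ := χ.contMDiff
  obtain ⟨i1, i2, i3⟩ := img (isClosed_tsupport χ).isCompact hχ
  have cut : ∀ G : Pt → ℝ, ContDiffOn ℝ ∞ G (chartAt Pt p).target →
      Sm (fun x => χ x * G (chartAt Pt p x)) ∧ ∀ z ∈ (chartAt Pt p).target,
        loc (fun x => χ x * G (chartAt Pt p x)) p z = loc χ p z * G z := fun G hG => by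
    have e : ∀ z ∈ (chartAt Pt p).target,
        loc (fun x => χ x * G (chartAt Pt p x)) p z = loc χ p z * G z := fun z hz => by
      simp only [loc, (chartAt Pt p).right_inv hz]
    exact ⟨sm_cut (isClosed_tsupport χ) hχ (fun x hx => by
      rw [image_eq_zero_of_notMem_tsupport hx, zero_mul]) (((sm_loc sχ p).mul hG).congr e), e⟩
  obtain ⟨sg, eg⟩ := cut (fun z => ξ 0 * z 0 + ξ 1 * z 1 + ξ 2 * z 2 + ξ 3 * z 3) (by fun_prop)
  generalize (fun x => χ x * _) = g at sg eg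
  have sl := pd_on hW (sm_loc sg p)
  have sH : ContDiffOn ℝ ∞ (fun z => tr (gr (loc g p) z) (co2 Θ p) z) (chartAt Pt p).target := by
    have := fun i a c => pd_on hW (hΘ.2 p a c) i
    simp only [tr, d3, gr]
    fun_prop
  obtain ⟨sf, ef⟩ := cut _ sH
  have zf : ∀ x, x ∉ tsupport χ → ∀ u, df (fun x => χ x * tr (gr (loc g p) (chartAt Pt p x))
      (co2 Θ p) (chartAt Pt p x)) x u = 0 := fun x hx u =>
    df_out (fun k => hx (tsupport_mul_subset_left k)) u
  generalize (fun x => χ x * _) = f at sf ef zf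
  have I := int_cut h hμ (sm_quot h.nd (isD_w11 sf sg).sm hΘ) (isClosed_tsupport χ) hχ
    (fun x hx => quot_zero _ _ (by ext u v; simp [w11_apply, zf x hx]))
    (g := fun z => w3 (gr (loc f p) z) (gr (loc g p) z) fun a c => co2 Θ p a c z) fun z hz => by
      rw [loc, quot_loc h.2.1.1 (w11_alt _ _) hΘ.1 p hz]
      refine (div_mul_cancel₀ _ (h.herm p hz).1.ne').trans ?_
      simp only [w3, gr, ← df_frame sf p _ hz, ← df_frame sg p _ hz]
      congr 1
      funext a c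
      simp only [co2, ev, co1, ev1, w11_apply]
      ring
  have N := (NulOn.sub ⟨I.1, I.2.symm.trans (hc _ ⟨_, isD_w11 sf sg⟩)⟩
    (nul_fl hW i1 i2 (sm_loc sf p) (fun z hz hz' => by
      rw [ef z hz, loc, image_eq_zero_of_notMem_tsupport (i3 z hz hz'), zero_mul]) sl
      (hΘ.2 p))).congr hW (g := fun z => loc χ p z * tr (gr (loc g p) z) (co2 Θ p) z ^ 2)
      fun z hz => by
        simp only [wedge, d1_gr hW (sm_loc sg p) hz, ef z hz]
        unfold gr
        ring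
  have one : loc χ p =ᶠ[𝓝 y] fun _ => 1 :=
    ((chartAt Pt p).continuousAt_symm hy).eventually χ.eventuallyEq_one
  have Z := nul_eq_zero hW N (fun z _ => mul_nonneg χ.nonneg (sq_nonneg _))
    ((sm_loc sχ p).mul (sH.pow 2)).continuousOn (fun _ _ k => k) hy
  rw [one.eq_of_nhds, one_mul] at Z
  have e : gr (loc g p) y = ξ := by
    have : HasFDerivAt (loc g p) (ξ 0 • ContinuousLinearMap.proj 0 + ξ 1 • ContinuousLinearMap.proj 1
        + ξ 2 • ContinuousLinearMap.proj 2 + ξ 3 • ContinuousLinearMap.proj 3 : Pt →L[ℝ] ℝ) y := by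
      refine (ContinuousLinearMap.hasFDerivAt _).congr_of_eventuallyEq ?_
      filter_upwards [one, hW.mem_nhds hy] with z hz hz'
      rw [eg z hz', hz]
      simp
    funext a
    rw [gr, pd, this.fderiv]
    fin_cases a <;> simp
  rwa [e, sq_eq_zero_iff] at Z

end Pool.Agent.DonKS
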