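import Pool.Agent.Lib.MP_2710d6_gt.KS.Alg

namespace Pool.Agent.DonKS

open Pool.Agent.DonHK
open Pool.Agent.Don (om0 om1 om2 fue wed nsq alg1 alg2 nsq_nonneg nsq_zero)

/-- The bilinear expression of the Bochner identity. -/
def Sx (h : Fin 4 → Fin 4 → ℝ) (s : ℝ) (P Q R p q r : Fin 4 → ℝ) : ℝ :=
  w3 P q (t3 s) - w3 Q p (t3 s) + (w3 Q r h - w3 R q h) + (w3 R p (t2 s) - w3 P r (t2 s))

variable {h A : Fin 4 → Fin 4 → ℝ} {r s : ℝ}

/-- The unitary frame of `h`. -/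
noncomputable abbrev uf (h : Fin 4 → Fin 4 → ℝ) (r s : ℝ) := um r s (h 0 2) (h 0 3)

theorem Herm.w (H : Herm h r s) (ξ η : Fin 4 → ℝ) :
    w3 ξ η h = s ^ 2 * om0 1 (pc (uf h r s) ξ) (pc (uf h r s) η) ∧
    w3 ξ η (t2 s) = s ^ 2 * om1 1 (pc (uf h r s) ξ) (pc (uf h r s) η) ∧
    w3 ξ η (t3 s) = s ^ 2 * om2 1 (pc (uf h r s) ξ) (pc (uf h r s) η) ∧
    ∀ A, w3 ξ η A = s ^ 2 * w3 (pc (uf h r s) ξ) (pc (uf h r s) η) (pm (uf h r s) A) := by
  have := H.s0
  obtain ⟨⟨a, b, c, d, e, f⟩, k2, k3, k⟩ := H.nf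
  have g : ∀ A, w3 ξ η A = s ^ 2 * w3 (pc (uf h r s) ξ) (pc (uf h r s) η) (pm (uf h r s) A) :=
    fun A => by rw [w3_pm, k]; field_simp
  refine ⟨?_, ?_, ?_, g⟩ <;> rw [g] <;> congr 1
  · simp only [w3, wedge, a, b, c, d, e, f, om0]; ring
  · rw [w3, k2, om1]; ring
  · rw [w3, k3, om2]; ring

theorem Herm.sx (H : Herm h r s) (P Q R p q t : Fin 4 → ℝ) : Sx h s P Q R p q t = s ^ 2 *
    (om2 1 (pc (uf h r s) P) (pc (uf h r s) q) - om2 1 (pc (uf h r s) Q) (pc (uf h r s) p) +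
    (om0 1 (pc (uf h r s) Q) (pc (uf h r s) t) - om0 1 (pc (uf h r s) R) (pc (uf h r s) q)) +
    (om1 1 (pc (uf h r s) R) (pc (uf h r s) p) - om1 1 (pc (uf h r s) P) (pc (uf h r s) t))) := by
  simp only [Sx, (H.w _ _).1, (H.w _ _).2.1, (H.w _ _).2.2.1]
  ring

/-- The pointwise data of a critical point in a holomorphic chart. -/
structure Crit (h A : Fin 4 → Fin 4 → ℝ) (r s U k1 k2 k3 : ℝ) (p q t G : Fin 4 → ℝ) : Prop where
  H : Herm h r s
  U0 : 0 < U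
  hU : s ^ 2 * U = wedge A A
  h1 : s ^ 2 * U * k1 = wedge A h
  h2 : s * U * k2 = A 0 2 - A 1 3
  h3 : s * U * k3 = A 0 3 + A 1 2
  hG : ∀ a, G a = k1 * p a + k2 * q a + k3 * t a
  el : ∀ ξ, w3 ξ p h + w3 ξ q (t2 s) + w3 ξ t (t3 s) = 2 * w3 ξ G A

variable {U k1 k2 k3 : ℝ} {p q t G : Fin 4 → ℝ}

theorem Crit.un (c : Crit h A r s U k1 k2 k3 p q t G) :
    2 * (U / 2) * k1 = pm (uf h r s) A 0 1 + pm (uf h r s) A 2 3 ∧
    2 * (U / 2) * k2 = pm (uf h r s) A 0 2 - pm (uf h r s) A 1 3 ∧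
    2 * (U / 2) * k3 = pm (uf h r s) A 0 3 + pm (uf h r s) A 1 2 ∧
    U / 2 = wedge (pm (uf h r s) A) (pm (uf h r s) A) / 2 ∧
    (∀ a, pc (uf h r s) G a = k1 * pc (uf h r s) p a + k2 * pc (uf h r s) q a +
      k3 * pc (uf h r s) t a) ∧
    ∀ e, fue 1 (pc (uf h r s) p) (pc (uf h r s) q) (pc (uf h r s) t) e =
      2 * wed (pc (uf h r s) G) (pm (uf h r s) A) e := by
  have s0 := c.H.s0
  obtain ⟨⟨a, b, c', d, e, f⟩, l2, l3, k⟩ := c.H.nf
  have m := wedge_pm (uf h r s) A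
  rw [k] at m
  refine ⟨?_, ?_, ?_, ?_, fun a => ?_, fun i => ?_⟩
  · have := m h
    rw [← c.h1] at this
    simp only [wedge, a, b, c', d, e, f] at this
    field_simp at this
    linarith
  · rw [← l2, m]
    have := c.h2
    simp only [wedge, t2, Matrix.cons_val_zero, Matrix.cons_val_one, Matrix.cons_val]
    field_simp
    linear_combination s * this
  · rw [← l3, m]
    have := c.h3
    simp only [wedge, t3, Matrix.cons_val_zero, Matrix.cons_val_one, Matrix.cons_val]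
    field_simp
    linear_combination s * this
  · rw [m, ← c.hU]
    field_simp
  · simp only [pc, c.hG]; ring
  · have E : ∀ η, om0 1 η (pc (uf h r s) p) + om1 1 η (pc (uf h r s) q) +
        om2 1 η (pc (uf h r s) t) = 2 * w3 η (pc (uf h r s) G) (pm (uf h r s) A) := fun η => by
      obtain ⟨ξ, rfl⟩ := pc_surj c.H.r0 s0 (h 0 2) (h 0 3) η
      have := c.el ξ
      rw [(c.H.w _ _).1, (c.H.w _ _).2.1, (c.H.w _ _).2.2.1, (c.H.w _ _).2.2.2 A] at this
      exact mul_left_cancel₀ (pow_ne_zero 2 s0) (by linear_combination this)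
    generalize pc (uf h r s) p = p at *
    generalize pc (uf h r s) q = q at *
    generalize pc (uf h r s) t = t at *
    generalize pc (uf h r s) G = G at *
    generalize pm (uf h r s) A = A at *
    have E0 := E ![1, 0, 0, 0]
    have E1 := E ![0, 1, 0, 0]
    have E2 := E ![0, 0, 1, 0]
    have E3 := E ![0, 0, 0, 1]
    simp only [om0, om1, om2, w3, wedge, Matrix.cons_val_zero, Matrix.cons_val_one,
      Matrix.cons_val] at E0 E1 E2 E3
    fin_cases i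
    · change fue _ _ _ _ 0 = 2 * wed _ _ 0
      simp only [fue, wed, Matrix.cons_val_zero]
      linear_combination -E0
    · change fue _ _ _ _ 1 = 2 * wed _ _ 1
      simp only [fue, wed, Matrix.cons_val_zero, Matrix.cons_val_one]
      linear_combination -E1
    · change fue _ _ _ _ 2 = 2 * wed _ _ 2
      simp only [fue, wed, Matrix.cons_val]
      linear_combination -E2
    · change fue _ _ _ _ 3 = 2 * wed _ _ 3
      simp only [fue, wed, Matrix.cons_val]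
      linear_combination -E3

theorem pc_zero {r s : ℝ} (hr : r ≠ 0) (hs : s ≠ 0) (a b : ℝ) {ξ : Fin 4 → ℝ}
    (h : ∀ c, pc (um r s a b) ξ c = 0) (c : Fin 4) : ξ c = 0 := by
  have h0 := h 0
  have h1 := h 1
  have h2 := h 2
  have h3 := h 3
  simp only [pc, um, Matrix.cons_val_zero, Matrix.cons_val_one, Matrix.cons_val] at h0 h1 h2 h3
  have z0 : ξ 0 = 0 := by field_simp at h0; linarith
  have z1 : ξ 1 = 0 := by field_simp at h1; linarith
  rw [z0, z1] at h2 h3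
  have z2 : ξ 2 = 0 := by simpa [hr, hs] using h2
  have z3 : ξ 3 = 0 := by simpa [hr, hs] using h3
  fin_cases c
  exacts [z0, z1, z2, z3]

theorem Crit.ineq (c : Crit h A r s U k1 k2 k3 p q t G) {φ C : ℝ} (hφ : 0 < φ) (hC : U ≤ C)
    {P Q R : Fin 4 → ℝ} (hP : ∀ a, P a = φ * (2 * -C * G a * k1 + p a))
    (hQ : ∀ a, Q a = φ * (2 * -C * G a * k2 + q a))
    (hR : ∀ a, R a = φ * (2 * -C * G a * k3 + t a)) :
    0 ≤ -Sx h s P Q R p q t ∧ (Sx h s P Q R p q t = 0 → ∀ a, p a = 0 ∧ G a = 0) := by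
  obtain ⟨u1, u2, u3, u4, u5, u6⟩ := c.un
  have s2 : 0 < s ^ 2 := sq_pos_of_ne_zero c.H.s0
  have e1 := alg1 (Or.inl rfl) k1 k2 k3 φ (-C) _ _ _ _ (pc (uf h r s) P) (pc (uf h r s) Q)
    (pc (uf h r s) R) u5 (fun a => by simp only [pc, hP]; ring)
    (fun a => by simp only [pc, hQ]; ring) (fun a => by simp only [pc, hR]; ring)
  have e := alg2 (w := U / 2) (Or.inl rfl) _ _ (u1.trans (by ring)) (u2.trans (by ring))
    (u3.trans (by ring)) (by rw [u4]; simp only [wedge, Don.pf]; ring) u6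
  have hn := nsq_nonneg (fue 1 (pc (uf h r s) p) (pc (uf h r s) q) (pc (uf h r s) t))
  have np := nsq_nonneg (pc (uf h r s) p)
  have nq := nsq_nonneg (pc (uf h r s) q)
  have nt := nsq_nonneg (pc (uf h r s) t)
  have u0 := c.U0
  rw [c.H.sx]
  generalize nsq (fue 1 (pc (uf h r s) p) (pc (uf h r s) q) (pc (uf h r s) t)) = n at *
  generalize k1 * om0 1 _ _ + k2 * om1 1 _ _ + k3 * om2 1 _ _ - nsq _ = T at *
  generalize om2 1 (pc (uf h r s) P) _ - _ + _ + _ = I at *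
  have hT : 0 ≤ T := nonneg_of_mul_nonneg_right (e ▸ hn) (by positivity)
  have key : φ * (nsq (pc (uf h r s) p) + nsq (pc (uf h r s) q) + nsq (pc (uf h r s) t)) ≤ -I := by
    rw [← neg_one_mul I, e1]
    exact mul_le_mul_of_nonneg_left (by nlinarith [mul_nonneg hT (sub_nonneg.2 hC)]) hφ.le
  refine ⟨?_, fun z => ?_⟩
  · rw [← mul_neg]
    exact mul_nonneg s2.le (le_trans (by positivity) key)
  · rw [(mul_eq_zero.1 z).resolve_left s2.ne', neg_zero] at key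
    have := nonpos_of_mul_nonpos_right key hφ
    have zp := pc_zero c.H.r0 c.H.s0 _ _ (nsq_zero (p := pc (uf h r s) p) (by linarith))
    have zq := pc_zero c.H.r0 c.H.s0 _ _ (nsq_zero (p := pc (uf h r s) q) (by linarith))
    have zt := pc_zero c.H.r0 c.H.s0 _ _ (nsq_zero (p := pc (uf h r s) t) (by linarith))
    exact fun a => ⟨zp a, by rw [c.hG, zp, zq, zt]; ring⟩

theorem Crit.bd (c : Crit h A r s U k1 k2 k3 p q t G) (ξ : Fin 4 → ℝ) :
    U / 2 * Sx h s (fun a => k1 * ξ a) (fun a => k2 * ξ a) (fun a => k3 * ξ a) p q t = s ^ 2 *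
      w3 (pc (uf h r s) ξ) (wed (pc (uf h r s) G) (pm (uf h r s) A)) (pm (uf h r s) A) := by
  obtain ⟨u1, u2, u3, u4, u5, u6⟩ := c.un
  rw [c.H.sx, ← alg3 (pc (uf h r s) ξ) _ _ _ _ u5 u1 u2 u3 u4 u6]
  have e : ∀ k : ℝ, pc (uf h r s) (fun a => k * ξ a) = fun a => k * pc (uf h r s) ξ a :=
    fun k => funext fun a => by simp only [pc]; ring
  simp only [e, om0, om1, om2]
  ring

end Pool.Agent.DonKS
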