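import Pool.Agent.Lib.MP_2710d6_gt.KS.Sphere

open MeasureTheory Set Filter Topology
open scoped Manifold ContDiff ComplexConjugate

namespace Pool.Agent.DonKS.Proj

open Pool.Agent.DonHK (Pt wedge lin Tan Form2 pd frame co2 Closed2 Exact quot IsVol ev push)

abbrev C3 := Fin 3 → ℂ

abbrev V3 := {v : Fin 3 → ℂ // v ≠ 0}

/-- The Hermitian product. -/
def ip (X Y : C3) : ℂ := ∑ i, conj (X i) * Y i

def nn (v : C3) : ℝ := ∑ i, Complex.normSq (v i)

theorem ip_self (v : C3) : ip v v = nn v := by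
  simp [ip, nn, Complex.normSq_eq_conj_mul_self]

theorem nn_pos {v : C3} (h : v ≠ 0) : 0 < nn v := by
  obtain ⟨i, hi⟩ := Function.ne_iff.1 h
  exact Finset.sum_pos' (fun j _ => Complex.normSq_nonneg _)
    ⟨i, Finset.mem_univ _, Complex.normSq_pos.2 hi⟩

theorem nn_smul (c : ℂ) (v : C3) : nn (c • v) = Complex.normSq c * nn v := by
  simp [nn, Finset.mul_sum]

/-- The orthogonal projection on the line of `v`. -/
noncomputable def PP (v : V3) : Fin 3 → Fin 3 → ℂ := fun i j => v.1 i * conj (v.1 j) / nn v.1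

theorem PP_cont : Continuous PP := by
  have h : ∀ i, Continuous fun v : V3 => v.1 i := fun i =>
    (continuous_apply i).comp continuous_subtype_val
  exact continuous_pi fun i => continuous_pi fun j =>
    ((h i).mul (Complex.continuous_conj.comp (h j))).div (Complex.continuous_ofReal.comp
      (continuous_finsetSum _ fun i _ => Complex.continuous_normSq.comp (h i)))
      fun v => Complex.ofReal_ne_zero.2 (nn_pos v.2).ne'

theorem PP_ne (v : V3) (j : Fin 3) : PP v j j ≠ 0 ↔ v.1 j ≠ 0 := by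
  simp [PP, (nn_pos v.2).ne']

theorem PP_div (v : V3) (i j : Fin 3) : (PP v j j)⁻¹ * PP v i j = (v.1 j)⁻¹ * v.1 i := by
  have h : (nn v.1 : ℂ) ≠ 0 := Complex.ofReal_ne_zero.2 (nn_pos v.2).ne'
  rcases eq_or_ne (v.1 j) 0 with e | e
  · simp [PP, e]
  · have e' : conj (v.1 j) ≠ 0 := by simpa using e
    simp only [PP]
    field_simp

/-- The complex projective plane. -/
abbrev CP := range PP

noncomputable def pr (v : V3) : CP := ⟨PP v, mem_range_self v⟩

theorem pr_cont : Continuous pr := PP_cont.subtype_mk _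

theorem pr_surj : Function.Surjective pr := fun ⟨_, v, e⟩ => ⟨v, Subtype.ext e⟩

theorem pr_eq (v w : V3) : pr v = pr w ↔ ∃ c : ℂ, c • v.1 = w.1 := by
  refine ⟨fun h => ?_, fun ⟨c, h⟩ => Subtype.ext (funext fun i => funext fun j => ?_)⟩
  · have e : PP v = PP w := congrArg Subtype.val h
    obtain ⟨j, hj⟩ := Function.ne_iff.1 v.2
    have hj' : v.1 j ≠ 0 := hj
    have hw : w.1 j ≠ 0 := (PP_ne w j).1 (e ▸ (PP_ne v j).2 hj')
    refine ⟨w.1 j * (v.1 j)⁻¹, funext fun i => ?_⟩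
    rw [Pi.smul_apply, smul_eq_mul, mul_assoc, ← PP_div, e, PP_div, mul_inv_cancel_left₀ hw]
  · have hc : c ≠ 0 := fun e => w.2 (by rw [← h, e, zero_smul])
    have hc' : conj c ≠ 0 := by simpa using hc
    have h0 : (nn v.1 : ℂ) ≠ 0 := Complex.ofReal_ne_zero.2 (nn_pos v.2).ne'
    change PP v i j = PP w i j
    simp only [PP, ← h, nn_smul, Pi.smul_apply, smul_eq_mul, map_mul, Complex.ofReal_mul,
      Complex.normSq_eq_conj_mul_self]
    field_simp

/-- The unit sphere maps onto the projective plane. -/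
def sp (x : Metric.sphere (0 : C3) 1) : V3 := ⟨x.1, ne_zero_of_mem_unit_sphere x⟩

theorem sp_cont : Continuous sp := continuous_subtype_val.subtype_mk _

theorem sp_surj : Function.Surjective (pr ∘ sp) := fun x => by
  obtain ⟨v, rfl⟩ := pr_surj x
  have h : ‖v.1‖ ≠ 0 := norm_ne_zero_iff.2 v.2
  refine ⟨⟨((‖v.1‖⁻¹ : ℝ) : ℂ) • v.1, ?_⟩, ((pr_eq _ _).2 ⟨_, rfl⟩).symm⟩
  rw [mem_sphere_zero_iff_norm, norm_smul, Complex.norm_real, norm_inv, norm_norm,
    inv_mul_cancel₀ h]

theorem pr_quot : IsQuotientMap pr :=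
  IsQuotientMap.of_comp sp_cont pr_cont
    ((pr_cont.comp sp_cont).isClosedMap.isQuotientMap (pr_cont.comp sp_cont) sp_surj)

theorem cp_compact : CompactSpace CP :=
  ⟨sp_surj.range_eq ▸ isCompact_range (pr_cont.comp sp_cont)⟩

theorem cp_conn : ConnectedSpace CP := by
  have : ConnectedSpace V3 := isConnected_iff_connectedSpace.1
    (isConnected_compl_singleton_of_one_lt_rank (E := C3)
      (by rw [← Module.finrank_eq_rank]; simp [Module.finrank_pi_fintype]) 0)
  exact pr_surj.connectedSpace pr_cont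

noncomputable def LL (b : Fin 3) : Pt →L[ℝ] C3 := ContinuousLinearMap.pi
  (Fin.insertNth (α := fun _ => Pt →L[ℝ] ℂ) b 0
    ![(ContinuousLinearMap.fst ℝ ℂ ℂ).comp (cx : Pt →L[ℝ] ℂ × ℂ),
      (ContinuousLinearMap.snd ℝ ℂ ℂ).comp (cx : Pt →L[ℝ] ℂ × ℂ)])

theorem LL_same (b : Fin 3) (u : Pt) : LL b u b = 0 := by simp [LL]

theorem LL_zero (b : Fin 3) (u : Pt) : LL b u (b.succAbove 0) = ⟨u 0, u 1⟩ := by
  simp only [LL, ContinuousLinearMap.pi_apply, Fin.insertNth_apply_succAbove]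
  rfl

theorem LL_one (b : Fin 3) (u : Pt) : LL b u (b.succAbove 1) = ⟨u 2, u 3⟩ := by
  simp only [LL, ContinuousLinearMap.pi_apply, Fin.insertNth_apply_succAbove]
  rfl

theorem c3_ext (b : Fin 3) {v w : C3} (h : v b = w b)
    (h0 : v (b.succAbove 0) = w (b.succAbove 0)) (h1 : v (b.succAbove 1) = w (b.succAbove 1)) :
    v = w :=
  funext ((Fin.forall_iff_succAbove b).2 ⟨h, Fin.forall_fin_two.2 ⟨h0, h1⟩⟩)

noncomputable def RR (b : Fin 3) : C3 →L[ℝ] Pt := (cx.symm : ℂ × ℂ →L[ℝ] Pt).comp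
  ((ContinuousLinearMap.proj (b.succAbove 0)).prod (ContinuousLinearMap.proj (b.succAbove 1)))

theorem LL_RR (b : Fin 3) {w : C3} (h : w b = 0) : LL b (RR b w) = w :=
  c3_ext b (by rw [LL_same, h]) (by rw [LL_zero]; rfl) (by rw [LL_one]; rfl)

noncomputable def hv (b : Fin 3) (y : Pt) : C3 := Pi.single b 1 + LL b y

theorem hv_same (b : Fin 3) (y : Pt) : hv b y b = 1 := by simp [hv, LL_same]

theorem hv_zero (b : Fin 3) (y : Pt) : hv b y (b.succAbove 0) = ⟨y 0, y 1⟩ := by
  simp [hv, LL_zero]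

theorem hv_one (b : Fin 3) (y : Pt) : hv b y (b.succAbove 1) = ⟨y 2, y 3⟩ := by
  simp [hv, LL_one]

theorem hv_ne (b : Fin 3) (y : Pt) : hv b y ≠ 0 := fun h =>
  one_ne_zero ((hv_same b y).symm.trans (congrFun h b))

theorem RR_hv (b : Fin 3) (y : Pt) : RR b (hv b y) = y := by
  change cx.symm (hv b y _, hv b y _) = y
  rw [hv_zero, hv_one]
  exact cx.symm_apply_apply y

theorem hv_RR (b : Fin 3) {w : C3} (h : w b = 1) : hv b (RR b w) = w :=
  c3_ext b (by rw [hv_same, h]) (by rw [hv_zero]; rfl) (by rw [hv_one]; rfl)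

theorem LL_inj (b : Fin 3) {u w : Pt} (h : LL b u = LL b w) : u = w := by
  rw [← RR_hv b u, hv, h, ← hv, RR_hv]

theorem hv_der (b : Fin 3) (y : Pt) : HasFDerivAt (hv b) (LL b) y :=
  (LL b).hasFDerivAt.const_add _

theorem hv_sm (b : Fin 3) : ContDiff ℝ ∞ (hv b) := contDiff_const.add (LL b).contDiff

noncomputable def gg (b : Fin 3) (y : Pt) : CP := pr ⟨hv b y, hv_ne b y⟩

theorem gg_cont (b : Fin 3) : Continuous (gg b) :=
  pr_cont.comp ((hv_sm b).continuous.subtype_mk _)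

noncomputable def qq (c : Fin 3) (v : C3) : Pt := RR c ((v c)⁻¹ • v)

theorem hv_qq {c : Fin 3} {v : C3} (h : v c ≠ 0) : hv c (qq c v) = (v c)⁻¹ • v :=
  hv_RR c (inv_mul_cancel₀ h)

noncomputable def co (c : Fin 3) (x : CP) : Pt := qq c fun i => x.1 i c

theorem co_pr (c : Fin 3) (v : V3) : co c (pr v) = qq c v.1 :=
  congrArg (RR c) (funext fun i => PP_div v i c)

theorem gg_qq {c : Fin 3} {v : V3} (h : v.1 c ≠ 0) : gg c (qq c v.1) = pr v :=
  ((pr_eq _ _).2 ⟨_, (hv_qq h).symm⟩).symm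

theorem en_cont (i j : Fin 3) : Continuous fun x : CP => x.1 i j :=
  (continuous_apply j).comp ((continuous_apply i).comp continuous_subtype_val)

noncomputable def sch (c : Fin 3) : OpenPartialHomeomorph CP Pt where
  toFun := co c
  invFun := gg c
  source := {x | x.1 c c ≠ 0}
  target := univ
  map_source' _ _ := mem_univ _
  map_target' y _ := (PP_ne _ c).2 ((hv_same c y).trans_ne one_ne_zero)
  left_inv' x hx := by
    obtain ⟨v, rfl⟩ := pr_surj x
    rw [co_pr, gg_qq ((PP_ne v c).1 hx)]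
  right_inv' y _ := (co_pr c _).trans (by
    change qq c (hv c y) = y
    rw [qq, hv_same, inv_one, one_smul, RR_hv])
  open_source := isOpen_ne_fun (en_cont c c) continuous_const
  open_target := isOpen_univ
  continuousOn_toFun := (RR c).continuous.comp_continuousOn
    ((ContinuousOn.inv₀ (en_cont c c).continuousOn fun _ hx => hx).smul
      (continuous_pi fun i => en_cont i c).continuousOn)
  continuousOn_invFun := (gg_cont c).continuousOn

theorem exists_ch (p : CP) : ∃ c, p ∈ (sch c).source := by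
  obtain ⟨v, rfl⟩ := pr_surj p
  obtain ⟨j, hj⟩ := Function.ne_iff.1 v.2
  exact ⟨j, (PP_ne v j).2 hj⟩

noncomputable def sb (p : CP) : Fin 3 := (exists_ch p).choose

theorem sch_mem (p : CP) : p ∈ (sch (sb p)).source := (exists_ch p).choose_spec

noncomputable def tau (a c : Fin 3) (y : Pt) : Pt := qq c (hv a y)

theorem sch_gg (a c : Fin 3) (y : Pt) : sch c (gg a y) = tau a c y := co_pr _ _

theorem ok_of {a c : Fin 3} {y : Pt} (h : gg a y ∈ (sch c).source) : hv a y c ≠ 0 :=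
  (PP_ne _ c).1 h

theorem gg_tau {a c : Fin 3} {y : Pt} (h : hv a y c ≠ 0) : gg c (tau a c y) = gg a y :=
  gg_qq (v := ⟨hv a y, hv_ne a y⟩) h

theorem gg_inj (b : Fin 3) : Function.Injective (gg b) := fun x y h => by
  rw [← (sch b).right_inv (mem_univ x), ← (sch b).right_inv (mem_univ y)]
  exact congrArg (sch b) h

theorem tau_sm {a c : Fin 3} {y : Pt} (h : hv a y c ≠ 0) : ContDiffAt ℝ ∞ (tau a c) y :=
  (RR c).contDiff.contDiffAt.comp y
    (((contDiff_pi.1 (hv_sm a) c).contDiffAt.inv h).smul (hv_sm a).contDiffAt)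

theorem tau_der {a c : Fin 3} {y : Pt} (h : hv a y c ≠ 0) :
    HasFDerivAt (tau a c) (fderiv ℝ (tau a c) y) y ∧ ∀ u, LL c (fderiv ℝ (tau a c) y u) =
      (hv a y c)⁻¹ • LL a u + (-(hv a y c ^ 2)⁻¹ * LL a u c) • hv a y := by
  have h1 := (hasDerivAt_inv h).comp_hasFDerivAt y (hasFDerivAt_pi'.1 (hv_der a y) c)
  have h2 : HasFDerivAt (tau a c) _ y := (RR c).hasFDerivAt.comp y (h1.smul (hv_der a y))
  refine ⟨h2.differentiableAt.hasFDerivAt, fun u => ?_⟩
  rw [h2.fderiv]
  refine LL_RR c (w := (hv a y c)⁻¹ • LL a u + (-(hv a y c ^ 2)⁻¹ * LL a u c) • hv a y) ?_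
  simp only [Pi.add_apply, Pi.smul_apply, smul_eq_mul]
  field_simp
  ring

noncomputable abbrev scs : ChartedSpace Pt CP where
  atlas := range sch
  chartAt p := sch (sb p)
  mem_chart_source := sch_mem
  chart_mem_atlas _ := mem_range_self _

theorem sman : @IsManifold ℝ _ Pt _ _ Pt _ 𝓘(ℝ, Pt) ∞ CP _ scs := by
  let _ := scs
  refine isManifold_of_contDiffOn _ _ _ ?_
  rintro _ _ ⟨a, rfl⟩ ⟨c, rfl⟩ y hy
  have h : gg a y ∈ (sch c).source := hy.1.2
  exact ((tau_sm (ok_of h)).congr_of_eventuallyEq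
    (Eventually.of_forall (sch_gg a c))).contDiffWithinAt

theorem sframe (p : CP) (y : Pt) (i : Fin 4) : @frame CP _ scs p y i =
    fderiv ℝ (tau (sb p) (sb (gg (sb p) y))) y (Pi.single i 1) := by
  let _ := scs
  have h0 := sch_mem (gg (sb p) y)
  have h : HasMFDerivAt 𝓘(ℝ, Pt) 𝓘(ℝ, Pt) (gg (sb p)) y
      (fderiv ℝ (tau (sb p) (sb (gg (sb p) y))) y) := by
    refine ⟨(gg_cont _).continuousAt, HasFDerivAt.hasFDerivWithinAt ?_⟩
    exact (tau_der (ok_of h0)).1.congr_of_eventuallyEq (Eventually.of_forall (sch_gg _ _))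
  exact congrArg (fun L : Pt →L[ℝ] Pt => L (Pi.single i 1)) h.mfderiv

theorem LL_J (b : Fin 3) (u : Pt) : LL b (dm Complex.I Complex.I u) = Complex.I • LL b u := by
  refine c3_ext b ?_ ?_ ?_
  · simp [LL_same]
  · simp [LL_zero, dm_apply, Complex.ext_iff]
  · simp [LL_one, dm_apply, Complex.ext_iff]

theorem tau_cx {a c : Fin 3} {y : Pt} (h : hv a y c ≠ 0) : IsCx (dm Complex.I Complex.I).toLinearMap
    fun i => fderiv ℝ (tau a c) y (Pi.single i 1) := by
  have k : ∀ u, dm Complex.I Complex.I (fderiv ℝ (tau a c) y u) =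
      fderiv ℝ (tau a c) y (dm Complex.I Complex.I u) := fun u => LL_inj c (by
    rw [LL_J, (tau_der h).2, (tau_der h).2, LL_J]
    funext i
    simp only [Pi.add_apply, Pi.smul_apply, smul_eq_mul]
    ring)
  refine ⟨(k _).trans ?_, (k _).trans ?_, (k _).trans ?_, (k _).trans ?_⟩ <;>
    simp only [← map_neg] <;> refine congrArg _ (funext fun i => ?_) <;> fin_cases i <;>
    simp [dm_apply]

/-- The Fubini-Study form in homogeneous coordinates. -/
noncomputable def fs (v X Y : C3) : ℝ := (ip X Y * ip v v - ip X v * ip v Y).im / nn v ^ 2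

theorem fs_inv {c : ℂ} (hc : c ≠ 0) (a b : ℂ) (v X Y : C3) :
    fs (c • v) (c • X + a • v) (c • Y + b • v) = fs v X Y := by
  have h : ip (c • X + a • v) (c • Y + b • v) * ip (c • v) (c • v) -
      ip (c • X + a • v) (c • v) * ip (c • v) (c • Y + b • v) =
      ((Complex.normSq c ^ 2 : ℝ) : ℂ) * (ip X Y * ip v v - ip X v * ip v Y) := by
    simp only [ip, Fin.sum_univ_three, Pi.add_apply, Pi.smul_apply, smul_eq_mul, map_add, map_mul,
      Complex.ofReal_pow, Complex.normSq_eq_conj_mul_self]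
    ring
  rw [fs, fs, h, Complex.im_ofReal_mul, nn_smul, mul_pow,
    mul_div_mul_left _ _ (pow_ne_zero 2 (Complex.normSq_pos.2 hc).ne')]

def NN (y : Pt) : ℝ := 1 + y 0 ^ 2 + y 1 ^ 2 + y 2 ^ 2 + y 3 ^ 2

theorem NN_pos (y : Pt) : 0 < NN y := by
  unfold NN
  positivity

def jy (y : Pt) : Pt := ![y 1, -y 0, y 3, -y 2]

def PW (y : Pt) (a c : Fin 4) : ℝ := NN y * ww 1 1 a c + y a * jy y c - jy y a * y c

/-- The Fubini-Study form in an affine chart. -/
noncomputable def WW (y : Pt) : Matrix (Fin 4) (Fin 4) ℝ := fun a c => PW y a c / NN y ^ 2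

theorem WW_apply (y u w : Pt) : Matrix.toBilin' (WW y) u w =
    (NN y * (u 0 * w 1 - u 1 * w 0 + u 2 * w 3 - u 3 * w 2) +
      (u 0 * y 0 + u 1 * y 1 + u 2 * y 2 + u 3 * y 3) *
        (w 0 * y 1 - w 1 * y 0 + w 2 * y 3 - w 3 * y 2) -
      (u 0 * y 1 - u 1 * y 0 + u 2 * y 3 - u 3 * y 2) *
        (w 0 * y 0 + w 1 * y 1 + w 2 * y 2 + w 3 * y 3)) / NN y ^ 2 := by
  simp [Matrix.toBilin'_apply, Fin.sum_univ_four, WW, PW, jy, ww]
  ring

theorem fs_hv (b : Fin 3) (y u w : Pt) :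
    fs (hv b y) (LL b u) (LL b w) = Matrix.toBilin' (WW y) u w := by
  have h : nn (hv b y) = NN y := by
    rw [nn, Fin.sum_univ_succAbove _ b, Fin.sum_univ_two, hv_same, hv_zero, hv_one]
    simp [NN, Complex.normSq_apply]
    ring
  rw [fs, ip_self, h, WW_apply]
  simp only [ip, Fin.sum_univ_succAbove _ b, Fin.sum_univ_two, hv_same, hv_zero, hv_one, LL_same,
    LL_zero, LL_one]
  congr 1
  simp
  ring

theorem WW_tau {a c : Fin 3} {y : Pt} (h : hv a y c ≠ 0) (u w : Pt) :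
    Matrix.toBilin' (WW (tau a c y)) (fderiv ℝ (tau a c) y u) (fderiv ℝ (tau a c) y w) =
      Matrix.toBilin' (WW y) u w := by
  rw [← fs_hv c, ← fs_hv a, (tau_der h).2, (tau_der h).2, tau, hv_qq h, fs_inv (inv_ne_zero h)]

noncomputable def om (x : CP) : LinearMap.BilinForm ℝ Pt := Matrix.toBilin' (WW (sch (sb x) x))

theorem om_co (p : CP) (a c : Fin 4) : @co2 CP _ scs om p a c = fun y => WW y a c := by
  funext y
  change om (gg (sb p) y) (@frame CP _ scs p y a) (@frame CP _ scs p y c) = _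
  rw [sframe, sframe, om, sch_gg, WW_tau (ok_of (sch_mem _)), Matrix.toBilin'_single]

theorem NN_sm : ContDiff ℝ ∞ NN := by
  unfold NN
  fun_prop

theorem jy_sm (c : Fin 4) : ContDiff ℝ ∞ fun y => jy y c := by
  fin_cases c <;> simp only [jy] <;> simp <;> fun_prop

theorem WW_sm (a c : Fin 4) : ContDiff ℝ ∞ fun y => WW y a c :=
  (((NN_sm.mul contDiff_const).add ((contDiff_apply ℝ ℝ a).mul (jy_sm c))).sub
    ((jy_sm a).mul (contDiff_apply ℝ ℝ c))).div (NN_sm.pow 2) fun y => (pow_pos (NN_pos y) 2).ne'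

theorem co_line (y u : Pt) (i : Fin 4) : HasDerivAt (fun t : ℝ => (y + t • u) i) (u i) 0 := by
  simpa using ((hasDerivAt_id (0 : ℝ)).mul_const (u i)).const_add (y i)

theorem jy_line (y u : Pt) (c : Fin 4) :
    HasDerivAt (fun t : ℝ => jy (y + t • u) c) (jy u c) 0 := by
  fin_cases c
  exacts [co_line y u 1, (co_line y u 0).neg, co_line y u 3, (co_line y u 2).neg]

theorem NN_line (y : Pt) (a : Fin 4) :
    HasDerivAt (fun t : ℝ => NN (y + t • (Pi.single a 1 : Pt))) (2 * y a) 0 := by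
  have h := fun i => (co_line y (Pi.single a 1) i).fun_pow 2
  refine (((((h 0).const_add 1).fun_add (h 1)).fun_add (h 2)).fun_add (h 3)).congr_deriv ?_
  fin_cases a <;> simp

theorem pd_WW (a c e : Fin 4) (y : Pt) : pd a (fun y => WW y c e) y =
    ((2 * y a * ww 1 1 c e + (Pi.single a 1 : Pt) c * jy y e + y c * jy (Pi.single a 1) e -
      jy (Pi.single a 1) c * y e - jy y c * (Pi.single a 1 : Pt) e) * NN y -
      4 * y a * PW y c e) / NN y ^ 3 := by
  have q := (NN_pos y).ne'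
  refine pd_line a ((WW_sm c e).differentiable (by simp) y) ?_
  refine ((((((NN_line y a).mul_const (ww 1 1 c e)).fun_add
    ((co_line y _ c).fun_mul (jy_line y _ e))).fun_sub
    ((jy_line y _ c).fun_mul (co_line y _ e))).fun_div ((NN_line y a).fun_pow 2)
    (by simpa using q))).congr_deriv ?_
  simp only [zero_smul, add_zero, PW]
  field_simp
  ring

theorem WW_closed (a c e : Fin 4) (y : Pt) : pd a (fun y => WW y c e) y -
    pd c (fun y => WW y a e) y + pd e (fun y => WW y a c) y = 0 := by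
  rw [pd_WW, pd_WW, pd_WW, ← sub_div, ← add_div, div_eq_zero_iff]
  left
  fin_cases a <;> fin_cases c <;> fin_cases e <;>
    simp [PW, jy, ww, NN, -mul_eq_zero] <;> ring

theorem WW_wedge (y : Pt) : wedge (WW y) (WW y) / 2 = (NN y ^ 3)⁻¹ := by
  have q := (NN_pos y).ne'
  simp only [wedge, WW, PW]
  field_simp
  simp [jy, ww, NN]
  ring

theorem om_dens (p : CP) (y : Pt) : @dens CP _ scs om p y = (NN y ^ 3)⁻¹ := by
  simp only [dens, om_co]
  exact WW_wedge y

theorem pd_log (i : Fin 4) :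
    pd i (fun y => Real.log (NN y ^ 3)⁻¹) = fun y => -6 * y i / NN y := by
  funext y
  have q := (NN_pos y).ne'
  refine pd_line i ((((NN_sm.pow 3).inv fun y => (pow_pos (NN_pos y) 3).ne').differentiable
    (by simp) y).log (by simpa using q)) ?_
  refine ((((NN_line y i).fun_pow 3).fun_inv (by simpa using q)).log
    (by simpa using q)).congr_deriv ?_
  simp only [zero_smul, add_zero]
  field_simp
  ring

theorem om_scal (p : CP) (y : Pt) : @scal CP _ scs om p y = 24 := by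
  let _ := scs
  have q := (NN_pos y).ne'
  have e : ∀ c, dc (fun y => Real.log (dens om p y)) c = fun y => 6 * jy y c / NN y := fun c => by
    simp only [om_dens, dc, pd_log]
    funext y
    fin_cases c <;> simp [jy] <;> ring
  have d : ∀ a c, pd a (fun y => 6 * jy y c / NN y) y =
      (6 * jy (Pi.single a 1) c * NN y - 6 * jy y c * (2 * y a)) / NN y ^ 2 := fun a c => by
    refine pd_line a (((contDiff_const.mul (jy_sm c)).div NN_sm
      fun y => (NN_pos y).ne').differentiable (by simp) y) ?_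
    refine (((jy_line y _ c).const_mul 6).fun_div (NN_line y a) (by simpa using q)).congr_deriv ?_
    simp only [zero_smul, add_zero]
  have r : ric om p y = fun a c => 6 * WW y a c := by
    funext a c
    simp only [ric, e, d, WW, PW]
    field_simp
    fin_cases a <;> fin_cases c <;> simp [jy, ww] <;> ring
  have w := WW_wedge y
  have w' : wedge (fun a c => 6 * WW y a c) (fun a c => WW y a c) = 6 * wedge (WW y) (WW y) := by
    simp only [wedge]
    ring
  simp only [scal, om_dens, om_co, r, w']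
  rw [show wedge (WW y) (WW y) = 2 * (NN y ^ 3)⁻¹ by linarith]
  field_simp
  norm_num

theorem vol_int : Integrable fun y : Pt => (NN y ^ 3)⁻¹ := by
  have h := integrable_rpow_neg_one_add_norm_sq (E := Pt) (μ := volume) (r := 6)
    (by simp; norm_num)
  have k := ((NN_sm.pow 3).inv fun y => (pow_pos (NN_pos y) 3).ne').continuous
  refine h.mono' k.aestronglyMeasurable (Eventually.of_forall fun y => ?_)
  have b : ‖y‖ ^ 2 ≤ NN y - 1 := by
    have h0 : 0 ≤ NN y - 1 := by
      unfold NN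
      nlinarith [sq_nonneg (y 0), sq_nonneg (y 1), sq_nonneg (y 2), sq_nonneg (y 3)]
    rw [← Real.le_sqrt (norm_nonneg _) h0, pi_norm_le_iff_of_nonneg (Real.sqrt_nonneg _)]
    intro i
    refine Real.abs_le_sqrt ?_
    unfold NN
    fin_cases i <;> simp <;>
      nlinarith [sq_nonneg (y 0), sq_nonneg (y 1), sq_nonneg (y 2), sq_nonneg (y 3)]
  rw [Real.norm_of_nonneg (inv_pos.2 (pow_pos (NN_pos y) 3)).le,
    show (-6 / 2 : ℝ) = -((3 : ℕ) : ℝ) by norm_num, Real.rpow_neg (by positivity),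
    Real.rpow_natCast]
  exact inv_anti₀ (by positivity) (pow_le_pow_left₀ (by positivity) (by linarith) 3)

theorem pf_det (y : Pt) (T : Pt →L[ℝ] Pt) :
    wedge (fun a c => Matrix.toBilin' (WW y) (T (Pi.single a 1)) (T (Pi.single c 1)))
      (fun a c => Matrix.toBilin' (WW y) (T (Pi.single a 1)) (T (Pi.single c 1))) =
      T.det * wedge (WW y) (WW y) := by
  have h : ∀ a c, WW y c a = -WW y a c := fun a c => by
    rw [← Matrix.toBilin'_single (WW y) c a, ← Matrix.toBilin'_single (WW y) a c, WW_apply,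
      WW_apply]
    ring
  have h0 : ∀ a, WW y a a = 0 := fun a => by linarith [h a a]
  obtain ⟨m, hm⟩ : ∃ m : Matrix (Fin 4) (Fin 4) ℝ, ∀ i a, T (Pi.single a 1) i = m i a :=
    ⟨fun i a => T (Pi.single a 1) i, fun _ _ => rfl⟩
  have e : LinearMap.toMatrix' (T : Pt →ₗ[ℝ] Pt) = m := by
    ext i a
    rw [← hm, LinearMap.toMatrix'_apply]
    rfl
  rw [ContinuousLinearMap.det, ← LinearMap.det_toMatrix', e]
  simp only [wedge, Matrix.toBilin'_apply, Fin.sum_univ_four, hm, h0, h 0 1, h 0 2, h 0 3, h 1 2,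
    h 1 3, h 2 3]
  simp [Matrix.det_succ_row_zero, Fin.sum_univ_succ, Fin.succAbove]
  ring

/-- The points with no zero homogeneous coordinate. -/
def ss : Set Pt := {y | (cx y).1 ≠ 0 ∧ (cx y).2 ≠ 0}

theorem mem_ss (a : Fin 3) (y : Pt) : y ∈ ss ↔ ∀ c, hv a y c ≠ 0 := by
  rw [Fin.forall_iff_succAbove a, Fin.forall_fin_two, hv_same, hv_zero, hv_one]
  exact (and_iff_right one_ne_zero).symm

theorem ae_ss : ∀ᵐ y, y ∈ ss := by
  filter_upwards [Measure.ae_eval_ne (fun _ : Fin 4 => (volume : Measure ℝ)) 0 0,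
    Measure.ae_eval_ne (fun _ : Fin 4 => (volume : Measure ℝ)) 2 0] with y h0 h2
  exact ⟨fun h => h0 (congrArg Complex.re h), fun h => h2 (congrArg Complex.re h)⟩

theorem vol_change (b : Fin 3) (F : CP → ℝ) :
    ∫ y, F (gg 0 y) * (NN y ^ 3)⁻¹ = ∫ y, F (gg b y) * (NN y ^ 3)⁻¹ := by
  have ho : ∀ a c, ∀ y ∈ ss, hv a y c ≠ 0 := fun a c y hy => (mem_ss a y).1 hy c
  have hm : MeasurableSet ss := ((isOpen_ne_fun cx.continuous.fst continuous_const).inter
    (isOpen_ne_fun cx.continuous.snd continuous_const)).measurableSet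
  have hs : ∀ a c, ∀ y ∈ ss, tau a c y ∈ ss := fun a c y hy => (mem_ss c _).2 fun j => by
    rw [tau, hv_qq (ho a c y hy)]
    exact mul_ne_zero (inv_ne_zero (ho a c y hy)) (ho a j y hy)
  have hi : tau b 0 '' ss = ss := by
    refine Subset.antisymm (image_subset_iff.2 (hs _ _)) fun y hy => ⟨_, hs 0 b y hy,
      gg_inj 0 ?_⟩
    rw [gg_tau (ho _ _ _ (hs _ _ y hy)), gg_tau (ho _ _ y hy)]
  have h := integral_image_eq_integral_abs_det_fderiv_smul volume hm
    (fun y hy => (tau_der (ho b 0 y hy)).1.hasFDerivWithinAt)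
    (fun x hx y hy e => gg_inj b (by rw [← gg_tau (ho b 0 x hx), ← gg_tau (ho b 0 y hy), e]))
    fun y => F (gg 0 y) * (NN y ^ 3)⁻¹
  rw [hi, Measure.restrict_eq_self_of_ae_mem ae_ss] at h
  rw [h]
  refine integral_congr_ae (ae_ss.mono fun y hy => ?_)
  have h1 := pf_det (tau b 0 y) (fderiv ℝ (tau b 0) y)
  simp only [WW_tau (ho b 0 y hy), Matrix.toBilin'_single] at h1
  have h2 := WW_wedge y
  have h3 := WW_wedge (tau b 0 y)
  have h4 : (NN y ^ 3)⁻¹ = (fderiv ℝ (tau b 0) y).det * (NN (tau b 0 y) ^ 3)⁻¹ := by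
    rw [← h2, ← h3, ← mul_div_assoc, ← h1]
  have h5 := inv_pos.2 (pow_pos (NN_pos (tau b 0 y)) 3)
  have h6 : 0 < (fderiv ℝ (tau b 0) y).det :=
    (mul_pos_iff_of_pos_right h5).1 (h4 ▸ inv_pos.2 (pow_pos (NN_pos y) 3))
  beta_reduce
  rw [gg_tau (ho _ _ y hy), abs_of_pos h6, h4, smul_eq_mul]
  ring

theorem WW_compat (y : Pt) :
    Compat (dm Complex.I Complex.I).toLinearMap (Matrix.toBilin' (WW y)) := by
  refine ⟨fun u v => ?_, fun u hu => ?_⟩
  · simp only [WW_apply]
    simp [dm_apply]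
    ring
  · obtain ⟨i, hi⟩ := Function.ne_iff.1 hu
    have h : 0 < ∑ j, u j ^ 2 := Finset.sum_pos' (fun j _ => sq_nonneg _)
      ⟨i, Finset.mem_univ _, sq_pos_of_ne_zero hi⟩
    rw [Fin.sum_univ_four] at h
    rw [WW_apply]
    refine div_pos ?_ (pow_pos (NN_pos y) 2)
    simp [dm_apply, NN]
    nlinarith [sq_nonneg (y 0 * u 2 - y 1 * u 3 - y 2 * u 0 + y 3 * u 1),
      sq_nonneg (y 0 * u 3 + y 1 * u 2 - y 2 * u 1 - y 3 * u 0)]

/-- The complex projective plane is a Kaehler surface of positive scalar curvature. -/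
theorem proj : ∃ (M : Type) (_ : TopologicalSpace M) (_ : T2Space M) (_ : CompactSpace M)
    (_ : ConnectedSpace M) (_ : ChartedSpace Pt M) (_ : IsManifold 𝓘(ℝ, Pt) ∞ M)
    (_ : MeasurableSpace M) (_ : BorelSpace M) (π : {v : Fin 3 → ℂ // v ≠ 0} → M) (J : End1 M)
    (Ω : Form2 M) (μ : Measure M), Topology.IsQuotientMap π ∧
    (∀ v w, π v = π w ↔ ∃ c : ℂ, c • v.1 = w.1) ∧ IsKaehler J Ω ∧ IsVol Ω μ ∧
    ∀ p, ∀ y ∈ (chartAt Pt p).target, 0 < scal Ω p y := by
  let _ := scs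
  let D : Pt → ℝ := fun y => (NN y ^ 3)⁻¹
  have hD : ∀ y, 0 < D y := fun y => inv_pos.2 (pow_pos (NN_pos y) 3)
  have mD : Measurable fun y => ENNReal.ofReal (D y) :=
    ((NN_sm.pow 3).inv fun y => (pow_pos (NN_pos y) 3).ne').continuous.measurable.ennreal_ofReal
  have hg := gg_cont 0
  have := isFiniteMeasure_withDensity_ofReal vol_int.2
  refine ⟨CP, inferInstance, inferInstance, cp_compact, cp_conn, scs, sman, inferInstance,
    inferInstance, pr, fun _ => (dm Complex.I Complex.I).toLinearMap, om,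
    (volume.withDensity fun y => ENNReal.ofReal (D y)).map (gg 0), pr_quot, pr_eq,
    ⟨fun p y _ => ?_, ⟨fun x u => ?_, fun p a c => ?_, fun p a c e y _ => ?_⟩,
      fun x => WW_compat _⟩, ⟨inferInstance, ⟨fun U hU hn h0 => ?_⟩,
      fun p F hF _ => ?_⟩, fun p y _ => ?_⟩
  · rw [funext (sframe p y)]
    exact tau_cx (ok_of (sch_mem _))
  · exact (WW_apply _ _ _).trans (by ring)
  · rw [om_co]
    exact (WW_sm a c).contDiffOn
  · simp only [om_co]
    exact WW_closed a c e y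
  · rw [Measure.map_apply hg.measurable hU.measurableSet] at h0
    obtain ⟨x, hx⟩ := hn
    have h1 : (gg (sb x) ⁻¹' U).Nonempty :=
      ⟨sch (sb x) x, show (sch (sb x)).symm _ ∈ U by rwa [(sch (sb x)).left_inv (sch_mem x)]⟩
    obtain ⟨y, y1, y2⟩ := (Measure.dense_of_ae ae_ss).exists_mem_open (hU.preimage (gg_cont _)) h1
    exact (hU.preimage hg).measure_ne_zero volume
      ⟨tau (sb x) 0 y, show gg 0 _ ∈ U by rwa [gg_tau ((mem_ss _ y).1 y1 0)]⟩
      (withDensity_absolutelyContinuous' mD.aemeasurable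
        (Eventually.of_forall fun y => (ENNReal.ofReal_pos.2 (hD y)).ne') h0)
  · rw [integral_map hg.aemeasurable hF.aestronglyMeasurable,
      integral_withDensity_eq_integral_toReal_smul mD (by simp)]
    change _ = ∫ y in univ, F (gg (sb p) y) * |dens om p y|
    simp only [om_dens, Measure.restrict_univ, ENNReal.toReal_ofReal (hD _).le, smul_eq_mul]
    simp only [mul_comm (D _), show ∀ y : Pt, |(NN y ^ 3)⁻¹| = D y from
      fun y => abs_of_pos (hD y)]
    exact vol_change _ F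
  · rw [om_scal]
    norm_num

end Pool.Agent.DonKS.Proj
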