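import Pool.Agent.Lib.MP_2710d6_gt.KS.Defs

open MeasureTheory Set Filter Topology
open scoped Manifold ContDiff

namespace Pool.Agent.DonKS

open Pool.Agent.DonHK (Pt wedge lin Tan Form2 pd frame co2 Closed2 Exact quot IsVol ev push)

/-- The product of two Riemann spheres. -/
abbrev S22 := OnePoint ℂ × OnePoint ℂ

open Classical in
noncomputable def sinv (x : OnePoint ℂ) : OnePoint ℂ :=
  x.elim ((0 : ℂ) : OnePoint ℂ) fun z => if z = 0 then OnePoint.infty else ((z⁻¹ : ℂ) : OnePoint ℂ)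

theorem sinv_ne {z : ℂ} (h : z ≠ 0) : sinv z = ((z⁻¹ : ℂ) : OnePoint ℂ) := if_neg h

theorem sinv_zero : sinv ((0 : ℂ) : OnePoint ℂ) = OnePoint.infty := if_pos rfl

theorem sinv_sinv (x : OnePoint ℂ) : sinv (sinv x) = x := by
  induction x using OnePoint.rec with
  | infty => exact sinv_zero
  | coe z =>
    rcases eq_or_ne z 0 with rfl | h
    · rw [sinv_zero]
      rfl
    · rw [sinv_ne h, sinv_ne (inv_ne_zero h), inv_inv]

theorem sinv_cont : Continuous sinv := by
  have e : coclosedCompact ℂ = Bornology.cobounded ℂ :=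
    coclosedCompact_eq_cocompact.trans Metric.cobounded_eq_cocompact.symm
  refine (OnePoint.continuous_iff _).2 ⟨?_, continuous_iff_continuousAt.2 fun z => ?_⟩
  · rw [e]
    refine ((OnePoint.continuous_coe.tendsto 0).comp tendsto_inv₀_cobounded).congr' ?_
    filter_upwards [Bornology.eventually_ne_cobounded 0] with z hz using (sinv_ne hz).symm
  · rcases eq_or_ne z 0 with rfl | h
    · refine continuousAt_iff_punctured_nhds.2 ?_
      rw [sinv_zero]
      refine (OnePoint.tendsto_coe_infty.comp (e ▸ tendsto_inv₀_nhdsNE_zero)).congr' ?_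
      filter_upwards [self_mem_nhdsWithin] with z hz using (sinv_ne hz).symm
    · refine (OnePoint.continuous_coe.continuousAt.comp (continuousAt_inv₀ h)).congr ?_
      filter_upwards [eventually_ne_nhds h] with w hw using (sinv_ne hw).symm

noncomputable def ssgx (b : Bool) (z : ℂ) : OnePoint ℂ := if b then sinv z else z

theorem sg_emb (b : Bool) : IsOpenEmbedding (ssgx b) := by
  cases b
  · exact OnePoint.isOpenEmbedding_coe
  · exact (⟨⟨sinv, sinv, sinv_sinv, sinv_sinv⟩, sinv_cont, sinv_cont⟩ :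
      OnePoint ℂ ≃ₜ OnePoint ℂ).isOpenEmbedding.comp OnePoint.isOpenEmbedding_coe

/-- The change of chart in one factor, and its derivative. -/
noncomputable def strx (a c : Bool) (z : ℂ) : ℂ := if a = c then z else z⁻¹

noncomputable def dtr (a c : Bool) (z : ℂ) : ℂ := if a = c then 1 else -(z ^ 2)⁻¹

theorem sg_tr {a c : Bool} {z : ℂ} (h : a = c ∨ z ≠ 0) : ssgx c (strx a c z) = ssgx a z := by
  cases a <;> cases c
  · rfl
  · have h := h.resolve_left (by decide)
    change sinv (z⁻¹ : ℂ) = z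
    rw [sinv_ne (inv_ne_zero h), inv_inv]
  · exact (sinv_ne (h.resolve_left (by decide))).symm
  · rfl

theorem sg_ok {a c : Bool} {z w : ℂ} (h : ssgx c w = ssgx a z) : a = c ∨ z ≠ 0 := by
  refine or_iff_not_imp_left.2 fun hn hz => ?_
  subst hz
  cases a <;> cases c
  · exact hn rfl
  · have h1 : sinv (sinv w) = sinv (0 : ℂ) := congrArg sinv h
    rw [sinv_sinv, sinv_zero] at h1
    exact OnePoint.coe_ne_infty w h1
  · exact OnePoint.coe_ne_infty w (h.trans sinv_zero)
  · exact hn rfl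

theorem tr_der {a c : Bool} {z : ℂ} (h : a = c ∨ z ≠ 0) : HasDerivAt (strx a c) (dtr a c z) z := by
  unfold strx dtr
  split_ifs with e
  · exact hasDerivAt_id z
  · exact hasDerivAt_inv (h.resolve_left e)

theorem tr_sm {a c : Bool} {z : ℂ} (h : a = c ∨ z ≠ 0) : ContDiffAt ℝ ∞ (strx a c) z := by
  unfold strx
  split_ifs with e
  · exact contDiffAt_id
  · exact contDiffAt_id.inv (h.resolve_left e)

noncomputable def ff (s t : ℝ) : ℝ := ((1 + s ^ 2 + t ^ 2) ^ 2)⁻¹

theorem ff_pos (s t : ℝ) : 0 < ff s t := by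
  unfold ff
  positivity

theorem ff_tr {a c : Bool} {z : ℂ} (h : a = c ∨ z ≠ 0) :
    ff (strx a c z).re (strx a c z).im * ((dtr a c z).re ^ 2 + (dtr a c z).im ^ 2) = ff z.re z.im := by
  unfold strx dtr
  split_ifs with e
  · simp
  · have h1 := Complex.normSq_pos.2 (h.resolve_left e)
    have h2 : ∀ w : ℂ, w.re ^ 2 + w.im ^ 2 = Complex.normSq w := fun w => by
      rw [Complex.normSq_apply]
      ring
    simp only [ff, add_assoc, h2, Complex.normSq_neg, map_inv₀, map_pow]
    field_simp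
    ring

noncomputable def cx : Pt ≃L[ℝ] ℂ × ℂ :=
  LinearEquiv.toContinuousLinearEquiv
    { toFun := fun y => (⟨y 0, y 1⟩, ⟨y 2, y 3⟩)
      invFun := fun w => ![w.1.re, w.1.im, w.2.re, w.2.im]
      map_add' := fun _ _ => rfl
      map_smul' := fun _ _ => Prod.ext (Complex.ext (by simp) (by simp))
        (Complex.ext (by simp) (by simp))
      left_inv := fun y => funext fun i => by fin_cases i <;> rfl
      right_inv := fun _ => rfl }

noncomputable def gg (b : Bool × Bool) (y : Pt) : S22 := Prod.map (ssgx b.1) (ssgx b.2) (cx y)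

theorem gg_emb (b : Bool × Bool) : IsOpenEmbedding (gg b) :=
  ((sg_emb b.1).prodMap (sg_emb b.2)).comp cx.toHomeomorph.isOpenEmbedding

noncomputable def sch (b : Bool × Bool) : OpenPartialHomeomorph S22 Pt :=
  ((gg_emb b).toOpenPartialHomeomorph (gg b)).symm

open Classical in
noncomputable def sb (p : S22) : Bool × Bool :=
  (decide (p.1 = OnePoint.infty), decide (p.2 = OnePoint.infty))

theorem sch_mem (p : S22) : p ∈ (sch (sb p)).source := by
  classical
  have h : ∀ x : OnePoint ℂ, ∃ z, ssgx (decide (x = OnePoint.infty)) z = x := fun x => by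
    induction x using OnePoint.rec with
    | infty => exact ⟨0, by rw [decide_eq_true rfl]; exact sinv_zero⟩
    | coe z => exact ⟨z, by rw [decide_eq_false (OnePoint.coe_ne_infty z)]; rfl⟩
  obtain ⟨z, hz⟩ := h p.1
  obtain ⟨w, hw⟩ := h p.2
  change p ∈ ((gg_emb _).toOpenPartialHomeomorph _).target
  rw [IsOpenEmbedding.toOpenPartialHomeomorph_target]
  exact ⟨cx.symm (z, w), Prod.ext hz hw⟩

def Ok (a c : Bool × Bool) (y : Pt) : Prop :=
  (a.1 = c.1 ∨ (cx y).1 ≠ 0) ∧ (a.2 = c.2 ∨ (cx y).2 ≠ 0)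

noncomputable def tau (a c : Bool × Bool) (y : Pt) : Pt :=
  cx.symm (Prod.map (strx a.1 c.1) (strx a.2 c.2) (cx y))

theorem gg_tau {a c : Bool × Bool} {y : Pt} (h : Ok a c y) : gg c (tau a c y) = gg a y :=
  Prod.ext (sg_tr h.1) (sg_tr h.2)

theorem ok_of {a c : Bool × Bool} {y : Pt} (h : gg a y ∈ (sch c).source) : Ok a c y := by
  change _ ∈ ((gg_emb _).toOpenPartialHomeomorph _).target at h
  rw [IsOpenEmbedding.toOpenPartialHomeomorph_target] at h
  obtain ⟨w, hw⟩ := h
  exact ⟨sg_ok (congrArg Prod.fst hw), sg_ok (congrArg Prod.snd hw)⟩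

theorem sch_gg {a c : Bool × Bool} {y : Pt} (h : gg a y ∈ (sch c).source) :
    sch c (gg a y) = tau a c y := by
  rw [← gg_tau (ok_of h)]
  exact (sch c).right_inv (mem_univ _)

theorem sch_ev {a c : Bool × Bool} {y : Pt} (h : gg a y ∈ (sch c).source) :
    (fun z => sch c (gg a z)) =ᶠ[𝓝 y] tau a c := by
  filter_upwards [(gg_emb a).continuous.continuousAt.eventually
    ((sch c).open_source.mem_nhds h)] with z hz using sch_gg hz

noncomputable def dm (m k : ℂ) : Pt →L[ℝ] Pt :=
  (cx.symm : ℂ × ℂ →L[ℝ] Pt).comp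
    (((m • (1 : ℂ →L[ℝ] ℂ)).prodMap (k • (1 : ℂ →L[ℝ] ℂ))).comp (cx : Pt →L[ℝ] ℂ × ℂ))

theorem dm_apply (m k : ℂ) (u : Pt) : dm m k u = ![m.re * u 0 - m.im * u 1,
    m.re * u 1 + m.im * u 0, k.re * u 2 - k.im * u 3, k.re * u 3 + k.im * u 2] := rfl

theorem dm_det (m k : ℂ) : (dm m k).det = (m.re ^ 2 + m.im ^ 2) * (k.re ^ 2 + k.im ^ 2) := by
  have h : LinearMap.toMatrix' (dm m k : Pt →ₗ[ℝ] Pt) =
      !![m.re, -m.im, 0, 0; m.im, m.re, 0, 0; 0, 0, k.re, -k.im; 0, 0, k.im, k.re] := by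
    ext i j
    fin_cases i <;> fin_cases j <;> simp [dm_apply]
  rw [ContinuousLinearMap.det, ← LinearMap.det_toMatrix', h]
  simp [Matrix.det_succ_row_zero, Fin.sum_univ_succ, Fin.succAbove]
  ring

theorem tau_der {a c : Bool × Bool} {y : Pt} (h : Ok a c y) :
    HasFDerivAt (tau a c) (dm (dtr a.1 c.1 (cx y).1) (dtr a.2 c.2 (cx y).2)) y :=
  cx.symm.hasFDerivAt.comp y ((HasFDerivAt.prodMap (cx y) (tr_der h.1).complexToReal_fderiv
    (tr_der h.2).complexToReal_fderiv).comp y cx.hasFDerivAt)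

noncomputable abbrev scs : ChartedSpace Pt S22 where
  atlas := range sch
  chartAt p := sch (sb p)
  mem_chart_source := sch_mem
  chart_mem_atlas _ := mem_range_self _

theorem sman : @IsManifold ℝ _ Pt _ _ Pt _ 𝓘(ℝ, Pt) ∞ S22 _ scs := by
  let _ := scs
  refine isManifold_of_contDiffOn _ _ _ ?_
  rintro _ _ ⟨a, rfl⟩ ⟨c, rfl⟩ y hy
  have h : gg a y ∈ (sch c).source := hy.1.2
  have h1 : ContDiffAt ℝ ∞ (tau a c) y := cx.symm.contDiff.contDiffAt.comp y
    ((ContDiffAt.prodMap' (tr_sm (ok_of h).1) (tr_sm (ok_of h).2)).comp y cx.contDiff.contDiffAt)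
  exact (h1.congr_of_eventuallyEq (sch_ev h)).contDiffWithinAt

theorem sframe (p : S22) (y : Pt) (i : Fin 4) : @frame S22 _ scs p y i =
    dm (dtr (sb p).1 (sb (gg (sb p) y)).1 (cx y).1) (dtr (sb p).2 (sb (gg (sb p) y)).2 (cx y).2)
      (Pi.single i 1) := by
  let _ := scs
  have h0 := sch_mem (gg (sb p) y)
  have h : HasMFDerivAt 𝓘(ℝ, Pt) 𝓘(ℝ, Pt) (gg (sb p)) y (dm (dtr (sb p).1 (sb (gg (sb p) y)).1
      (cx y).1) (dtr (sb p).2 (sb (gg (sb p) y)).2 (cx y).2)) := by
    refine ⟨(gg_emb _).continuous.continuousAt, HasFDerivAt.hasFDerivWithinAt ?_⟩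
    exact (tau_der (ok_of h0)).congr_of_eventuallyEq (sch_ev h0)
  exact congrArg (fun L : Pt →L[ℝ] Pt => L (Pi.single i 1)) h.mfderiv

/-- The matrix of `u e_0 e_1 + v e_2 e_3`. -/
def ww (u v : ℝ) : Matrix (Fin 4) (Fin 4) ℝ := !![0, u, 0, 0; -u, 0, 0, 0; 0, 0, 0, v; 0, 0, -v, 0]

theorem ww_apply (u v : ℝ) (X Y : Pt) : Matrix.toBilin' (ww u v) X Y =
    u * (X 0 * Y 1 - X 1 * Y 0) + v * (X 2 * Y 3 - X 3 * Y 2) := by
  simp [Matrix.toBilin'_apply, Fin.sum_univ_four, ww]
  ring

noncomputable def om (x : S22) : LinearMap.BilinForm ℝ Pt :=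
  Matrix.toBilin' (ww (ff (sch (sb x) x 0) (sch (sb x) x 1)) (ff (sch (sb x) x 2) (sch (sb x) x 3)))

theorem om_co (p : S22) (a c : Fin 4) :
    @co2 S22 _ scs om p a c = fun y => ww (ff (y 0) (y 1)) (ff (y 2) (y 3)) a c := by
  funext y
  have h0 := sch_mem (gg (sb p) y)
  have h1 : ff (y 0) (y 1) = _ := (ff_tr (ok_of h0).1).symm
  have h2 : ff (y 2) (y 3) = _ := (ff_tr (ok_of h0).2).symm
  change om (gg (sb p) y) (@frame S22 _ scs p y a) (@frame S22 _ scs p y c) = _
  rw [sframe, sframe, om, sch_gg h0, ww_apply, h1, h2]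
  change ff (strx _ _ (cx y).1).re (strx _ _ (cx y).1).im * _ +
    ff (strx _ _ (cx y).2).re (strx _ _ (cx y).2).im * _ = _
  simp only [dm_apply]
  fin_cases a <;> fin_cases c <;> simp [ww, -mul_eq_zero, -mul_eq_mul_left_iff] <;> ring

theorem ff_sm (i j : Fin 4) : ContDiff ℝ ∞ fun y : Pt => ff (y i) (y j) := by
  unfold ff
  exact ContDiff.inv (by fun_prop) fun y => by positivity

theorem pd_indep {g : ℝ → ℝ → ℝ} {i j a : Fin 4} (hi : i ≠ a) (hj : j ≠ a) (y : Pt)
    (h : DifferentiableAt ℝ (fun y : Pt => g (y i) (y j)) y) :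
    pd a (fun y => g (y i) (y j)) y = 0 := by
  unfold pd
  rw [← h.lineDeriv_eq_fderiv, lineDeriv]
  simp [hi, hj]

theorem pd_line {g : Pt → ℝ} {y : Pt} (a : Fin 4) (h : DifferentiableAt ℝ g y) {d : ℝ}
    (k : HasDerivAt (fun t : ℝ => g (y + t • (Pi.single a 1 : Pt))) d 0) : pd a g y = d := by
  unfold pd
  rw [← h.lineDeriv_eq_fderiv, lineDeriv, k.deriv]

theorem ww_closed (a c e : Fin 4) (y : Pt) :
    pd a (fun y => ww (ff (y 0) (y 1)) (ff (y 2) (y 3)) c e) y -
      pd c (fun y => ww (ff (y 0) (y 1)) (ff (y 2) (y 3)) a e) y +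
      pd e (fun y => ww (ff (y 0) (y 1)) (ff (y 2) (y 3)) a c) y = 0 := by
  have d : ∀ i j, DifferentiableAt ℝ (fun y : Pt => ff (y i) (y j)) y := fun i j =>
    (ff_sm i j).differentiable (by simp) y
  have h : ∀ a c e, pd a (fun y => ww (ff (y 0) (y 1)) (ff (y 2) (y 3)) c e) y =
      ww (pd a (fun y => ff (y 0) (y 1)) y) (pd a (fun y => ff (y 2) (y 3)) y) c e := by
    intro a c e
    fin_cases c <;> fin_cases e <;> simp [ww, pd, fderiv_fun_neg]
  have h0 := pd_indep (a := 0) (by decide) (by decide) y (d 2 3)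
  have h1 := pd_indep (a := 1) (by decide) (by decide) y (d 2 3)
  have h2 := pd_indep (a := 2) (by decide) (by decide) y (d 0 1)
  have h3 := pd_indep (a := 3) (by decide) (by decide) y (d 0 1)
  rw [h, h, h]
  fin_cases a <;> fin_cases c <;> fin_cases e <;> simp [ww, h0, h1, h2, h3]

theorem pd_log (i j k l : Fin 4) (hj : j ≠ i) (hk : k ≠ i) (hl : l ≠ i) {L : Pt → ℝ}
    (h : ∀ y, L y = Real.log (ff (y i) (y j) * ff (y k) (y l))) :
    pd i L = fun y => -4 * y i / (1 + y i ^ 2 + y j ^ 2) := by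
  obtain rfl := funext h
  funext y
  have q : (0 : ℝ) < 1 + y i ^ 2 + y j ^ 2 := by positivity
  refine pd_line i ((((ff_sm i j).mul (ff_sm k l)).differentiable (by simp) y).log
    (mul_pos (ff_pos _ _) (ff_pos _ _)).ne') ?_
  have h1 : HasDerivAt (fun t : ℝ => 1 + (y i + t) ^ 2 + y j ^ 2) (2 * y i) 0 := by
    simpa using ((((hasDerivAt_id (0 : ℝ)).const_add (y i)).fun_pow 2).const_add 1).add_const
      (y j ^ 2)
  have h2 := (((h1.fun_pow 2).fun_inv (by simpa using q.ne')).mul_const (ff (y k) (y l))).log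
    (by simpa using ⟨q.ne', (ff_pos _ _).ne'⟩)
  convert h2 using 1
  · funext t
    simp [hj, hk, hl, ff]
  · have := ff_pos (y k) (y l)
    simp only [add_zero]
    field_simp
    ring

theorem pd_two (i j : Fin 4) (hj : j ≠ i) (y : Pt) {G : Pt → ℝ}
    (h : ∀ y, G y = -4 * y i / (1 + y i ^ 2 + y j ^ 2)) :
    pd i G y = -4 * (1 - y i ^ 2 + y j ^ 2) * ff (y i) (y j) := by
  obtain rfl := funext h
  have q : (0 : ℝ) < 1 + y i ^ 2 + y j ^ 2 := by positivity
  refine pd_line i (by fun_prop (disch := exact q.ne')) ?_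
  have h0 := (hasDerivAt_id (0 : ℝ)).const_add (y i)
  have h2 := (h0.const_mul (-4)).fun_div (((h0.fun_pow 2).const_add 1).add_const (y j ^ 2))
    (by simpa using q.ne')
  refine (h2.congr_deriv ?_).congr_of_eventuallyEq (Eventually.of_forall fun t => by simp [hj])
  simp only [ff, id, add_zero]
  field_simp
  ring

theorem ff_symm (s t : ℝ) : ff s t = ff t s := by
  unfold ff
  rw [add_right_comm]

theorem spd_negx (a : Fin 4) (g : Pt → ℝ) (y : Pt) : pd a (fun y => -g y) y = -pd a g y := by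
  simp [pd, fderiv_fun_neg]

theorem om_dens (p : S22) (y : Pt) :
    @dens S22 _ scs om p y = ff (y 0) (y 1) * ff (y 2) (y 3) := by
  simp only [dens, om_co, wedge]
  simp [ww]
  ring

theorem om_scal (p : S22) (y : Pt) : @scal S22 _ scs om p y = 16 := by
  let _ := scs
  let L : Pt → ℝ := fun y => Real.log (dens om p y)
  have e0 := pd_log 0 1 2 3 (by decide) (by decide) (by decide) (L := L)
    fun y => by simp only [L, om_dens]
  have e1 := pd_log 1 0 2 3 (by decide) (by decide) (by decide) (L := L)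
    fun y => by simp only [L, om_dens, ff_symm (y 1)]
  have e2 := pd_log 2 3 0 1 (by decide) (by decide) (by decide) (L := L)
    fun y => by simp only [L, om_dens, mul_comm]
  have e3 := pd_log 3 2 0 1 (by decide) (by decide) (by decide) (L := L)
    fun y => by simp only [L, om_dens, ff_symm (y 3), mul_comm]
  have r1 : ric om p y 0 1 = 4 * ff (y 0) (y 1) := by
    change -(pd 0 (pd 0 L) y - pd 1 (fun y => -pd 1 L y) y) / 2 = _
    rw [spd_negx, pd_two 0 1 (by decide) y (congrFun e0), pd_two 1 0 (by decide) y (congrFun e1),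
      ff_symm (y 1)]
    ring
  have r2 : ric om p y 2 3 = 4 * ff (y 2) (y 3) := by
    change -(pd 2 (pd 2 L) y - pd 3 (fun y => -pd 3 L y) y) / 2 = _
    rw [spd_negx, pd_two 2 3 (by decide) y (congrFun e2), pd_two 3 2 (by decide) y (congrFun e3),
      ff_symm (y 3)]
    ring
  have f1 := ff_pos (y 0) (y 1)
  have f2 := ff_pos (y 2) (y 3)
  simp only [scal, om_dens, om_co, wedge, r1, r2]
  simp [ww]
  field_simp
  norm_num

theorem vol_int : Integrable fun y : Pt => ff (y 0) (y 1) * ff (y 2) (y 3) := by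
  have h := Integrable.fintype_prod (μ := fun _ : Fin 4 => (volume : Measure ℝ))
    fun _ => integrable_inv_one_add_sq
  have b : ∀ s t : ℝ, ff s t ≤ (1 + s ^ 2)⁻¹ * (1 + t ^ 2)⁻¹ := fun s t => by
    rw [← mul_inv]
    refine inv_anti₀ (by positivity) ?_
    nlinarith [sq_nonneg s, sq_nonneg t, sq_nonneg (s ^ 2), sq_nonneg (t ^ 2),
      mul_nonneg (sq_nonneg s) (sq_nonneg t)]
  refine h.mono' ((ff_sm 0 1).mul (ff_sm 2 3)).continuous.aestronglyMeasurable
    (Eventually.of_forall fun y => ?_)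
  rw [Real.norm_of_nonneg (mul_pos (ff_pos _ _) (ff_pos _ _)).le, Fin.prod_univ_four, mul_assoc]
  exact mul_le_mul (b _ _) (b _ _) (ff_pos _ _).le (by positivity)

theorem vol_change (b : Bool × Bool) (F : S22 → ℝ) :
    ∫ y, F (gg (false, false) y) * (ff (y 0) (y 1) * ff (y 2) (y 3)) =
      ∫ y, F (gg b y) * (ff (y 0) (y 1) * ff (y 2) (y 3)) := by
  let s : Set Pt := {y | (cx y).1 ≠ 0 ∧ (cx y).2 ≠ 0}
  have ho : ∀ a c, ∀ y ∈ s, Ok a c y := fun a c y hy => ⟨Or.inr hy.1, Or.inr hy.2⟩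
  have hm : MeasurableSet s := ((isOpen_ne_fun cx.continuous.fst continuous_const).inter
    (isOpen_ne_fun cx.continuous.snd continuous_const)).measurableSet
  have ha : ∀ᵐ y, y ∈ s := by
    filter_upwards [Measure.ae_eval_ne (fun _ : Fin 4 => (volume : Measure ℝ)) 0 0,
      Measure.ae_eval_ne (fun _ : Fin 4 => (volume : Measure ℝ)) 2 0] with y h0 h2
    exact ⟨fun h => h0 (congrArg Complex.re h), fun h => h2 (congrArg Complex.re h)⟩
  have t0 : ∀ a c z, z ≠ 0 → strx a c z ≠ 0 := fun a c z hz => by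
    unfold strx
    split_ifs
    exacts [hz, inv_ne_zero hz]
  have hs : ∀ a c, ∀ y ∈ s, tau a c y ∈ s := fun a c y hy => ⟨t0 _ _ _ hy.1, t0 _ _ _ hy.2⟩
  have hi : tau b (false, false) '' s = s := by
    refine Subset.antisymm (image_subset_iff.2 (hs _ _)) fun y hy => ⟨_, hs (false, false) b y hy,
      (gg_emb (false, false)).injective ?_⟩
    rw [gg_tau (ho _ _ _ (hs _ _ y hy)), gg_tau (ho _ _ y hy)]
  have h := integral_image_eq_integral_abs_det_fderiv_smul volume hm
    (fun y hy => (tau_der (ho b (false, false) y hy)).hasFDerivWithinAt)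
    (fun x hx y hy e => (gg_emb b).injective (by
      rw [← gg_tau (ho b (false, false) x hx), ← gg_tau (ho b (false, false) y hy), e]))
    fun y => F (gg (false, false) y) * (ff (y 0) (y 1) * ff (y 2) (y 3))
  rw [hi, Measure.restrict_eq_self_of_ae_mem ha] at h
  rw [h]
  refine integral_congr_ae (ha.mono fun y hy => ?_)
  have h1 : ff (y 0) (y 1) = _ := (ff_tr (ho b (false, false) y hy).1).symm
  have h2 : ff (y 2) (y 3) = _ := (ff_tr (ho b (false, false) y hy).2).symm
  beta_reduce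
  rw [gg_tau (ho _ _ y hy), dm_det, abs_of_nonneg (by positivity), h1, h2, smul_eq_mul]
  change _ * (_ * (ff (strx _ _ (cx y).1).re (strx _ _ (cx y).1).im *
    ff (strx _ _ (cx y).2).re (strx _ _ (cx y).2).im)) = _
  ring

theorem dm_cx (m k : ℂ) :
    IsCx (dm Complex.I Complex.I).toLinearMap fun i => dm m k (Pi.single i 1) := by
  refine ⟨?_, ?_, ?_, ?_⟩ <;> refine funext fun i => ?_ <;> fin_cases i <;> simp [dm_apply]

theorem ww_compat {s t : ℝ} (hs : 0 < s) (ht : 0 < t) :
    Compat (dm Complex.I Complex.I).toLinearMap (Matrix.toBilin' (ww s t)) := by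
  refine ⟨fun u v => ?_, fun u hu => ?_⟩
  · simp [ww_apply, dm_apply]
    ring
  · have e : Matrix.toBilin' (ww s t) u ((dm Complex.I Complex.I).toLinearMap u) =
        ∑ i, ![s, s, t, t] i * u i ^ 2 := by
      simp [ww_apply, dm_apply, Fin.sum_univ_four]
      ring
    have h : ∀ i, 0 < ![s, s, t, t] i := fun i => by fin_cases i <;> assumption
    obtain ⟨i, hi⟩ := Function.ne_iff.1 hu
    rw [e]
    exact Finset.sum_pos' (fun j _ => mul_nonneg (h j).le (sq_nonneg _))
      ⟨i, Finset.mem_univ _, mul_pos (h i) (sq_pos_of_ne_zero hi)⟩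

/-- The product of two round spheres is a Kaehler surface of positive scalar curvature. -/
theorem sphere [MeasurableSpace S22] [BorelSpace S22] :
    ∃ (_ : ChartedSpace Pt S22) (_ : IsManifold 𝓘(ℝ, Pt) ∞ S22) (J : End1 S22) (Ω : Form2 S22)
      (μ : Measure S22), IsKaehler J Ω ∧ IsVol Ω μ ∧
        ∀ p, ∀ y ∈ (chartAt Pt p).target, 0 < scal Ω p y := by
  let _ := scs
  let D : Pt → ℝ := fun y => ff (y 0) (y 1) * ff (y 2) (y 3)
  have hD : ∀ y, 0 < D y := fun y => mul_pos (ff_pos _ _) (ff_pos _ _)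
  have mD : Measurable fun y => ENNReal.ofReal (D y) :=
    ((ff_sm 0 1).mul (ff_sm 2 3)).continuous.measurable.ennreal_ofReal
  have hg := (gg_emb (false, false)).continuous
  have := isFiniteMeasure_withDensity_ofReal vol_int.2
  refine ⟨scs, sman, fun _ => (dm Complex.I Complex.I).toLinearMap, om,
    (volume.withDensity fun y => ENNReal.ofReal (D y)).map (gg (false, false)),
    ⟨fun p y _ => ?_, ⟨fun x u => ?_, fun p a c => ?_, fun p a c e y _ => ?_⟩,
      fun x => ww_compat (ff_pos _ _) (ff_pos _ _)⟩, ⟨inferInstance, ⟨fun U hU hn h0 => ?_⟩,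
      fun p F hF _ => ?_⟩, fun p y _ => ?_⟩
  · rw [funext (sframe p y)]
    exact dm_cx _ _
  · exact (ww_apply _ _ _ _).trans (by ring)
  · rw [om_co]
    have h1 := (ff_sm 0 1).contDiffOn (s := (chartAt Pt p).target)
    have h2 := (ff_sm 2 3).contDiffOn (s := (chartAt Pt p).target)
    fin_cases a <;> fin_cases c <;>
      first | exact contDiffOn_const | exact h1 | exact h2 | exact h1.neg | exact h2.neg
  · simp only [om_co]
    exact ww_closed a c e y
  · rw [Measure.map_apply hg.measurable hU.measurableSet] at h0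
    have h1 : DenseRange (gg (false, false)) := (OnePoint.denseRange_coe.prodMap
      OnePoint.denseRange_coe).comp cx.surjective.denseRange
        (OnePoint.continuous_coe.prodMap OnePoint.continuous_coe)
    exact (hU.preimage hg).measure_ne_zero volume (h1.exists_mem_open hU hn)
      (withDensity_absolutelyContinuous' mD.aemeasurable
        (Eventually.of_forall fun y => (ENNReal.ofReal_pos.2 (hD y)).ne') h0)
  · rw [integral_map hg.aemeasurable hF.aestronglyMeasurable,
      integral_withDensity_eq_integral_toReal_smul mD (by simp)]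
    change _ = ∫ y in univ, F (gg (sb p) y) * |dens om p y|
    simp only [om_dens, Measure.restrict_univ, ENNReal.toReal_ofReal (hD _).le, smul_eq_mul]
    simp only [mul_comm (D _), show ∀ y : Pt, |ff (y 0) (y 1) * ff (y 2) (y 3)| = D y from
      fun y => abs_of_pos (hD y)]
    exact vol_change _ F
  · rw [om_scal]
    norm_num

end Pool.Agent.DonKS
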