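import Pool.Agent.Lib.MP_2710d6_gt.KS.Defs
import Pool.Agent.Lib.MP_2710d6_gt.HK.Torus

open MeasureTheory Set Filter Topology
open scoped Manifold ContDiff

namespace Pool.Agent.DonKS

open Pool.Agent.DonHK

/-- The standard complex structure of the model space. -/
def torJ : Pt →ₗ[ℝ] Pt where
  toFun u := ![-u 1, u 0, -u 3, u 2]
  map_add' u v := by
    ext i
    fin_cases i <;> simp [add_comm]
  map_smul' t u := by
    ext i
    fin_cases i <;> simp

theorem tor_cx : IsCx torJ fun a : Fin 4 => (Pi.single a 1 : Pt) := by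
  refine ⟨?_, ?_, ?_, ?_⟩ <;> ext i <;> fin_cases i <;> simp [torJ]

theorem tor_form (u v : Pt) : Matrix.toBilin' (Matrix.of (std 0)) u v =
    u 0 * v 1 - u 1 * v 0 + u 2 * v 3 - u 3 * v 2 := by
  simp [Matrix.toBilin'_apply, Fin.sum_univ_four, std]
  ring

theorem tor_compat : Compat torJ (Matrix.toBilin' (Matrix.of (std 0))) := by
  refine ⟨fun u v => ?_, fun u hu => ?_⟩
  · rw [tor_form, tor_form]
    simp [torJ]
    ring
  · rw [tor_form]
    have h : u 0 * torJ u 1 - u 1 * torJ u 0 + u 2 * torJ u 3 - u 3 * torJ u 2 =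
        u 0 ^ 2 + u 1 ^ 2 + u 2 ^ 2 + u 3 ^ 2 := by
      simp [torJ]
      ring
    rw [h]
    by_contra hn
    have h0 := sq_nonneg (u 0)
    have h1 := sq_nonneg (u 1)
    have h2 := sq_nonneg (u 2)
    have h3 := sq_nonneg (u 3)
    apply hu
    ext i
    fin_cases i
    · exact pow_eq_zero_iff (two_ne_zero) |>.1 (by show u 0 ^ 2 = 0; linarith)
    · exact pow_eq_zero_iff (two_ne_zero) |>.1 (by show u 1 ^ 2 = 0; linarith)
    · exact pow_eq_zero_iff (two_ne_zero) |>.1 (by show u 2 ^ 2 = 0; linarith)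
    · exact pow_eq_zero_iff (two_ne_zero) |>.1 (by show u 3 ^ 2 = 0; linarith)

theorem torus : ∃ (_ : ChartedSpace Pt T4) (_ : IsManifold 𝓘(ℝ, Pt) ∞ T4) (J : End1 T4) (Ω : Form2 T4) (μ : Measure T4), IsKaehler J Ω ∧ IsVol Ω μ ∧ ∀ p, ∀ y ∈ (chartAt Pt p).target, 0 ≤ scal Ω p y := by
  let _ := tcs
  let Ω : Form2 T4 := fun _ => Matrix.toBilin' (Matrix.of (std 0))
  have e : ∀ p a c, co2 Ω p a c = fun _ => std 0 a c := fun p a c => funext fun y => by
    unfold co2 ev
    rw [tframe, tframe]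
    exact Matrix.toBilin'_single _ _ _
  have w2 : wedge (std 0) (std 0) = 2 := (wedge_std0 _).trans one_add_one_eq_two
  refine ⟨tcs, tman, fun _ => torJ, Ω, Measure.pi fun _ => AddCircle.haarAddCircle,
    ⟨fun p y _ => ?_, ⟨fun _ => std_alt 0, fun p a c => ?_, fun p a c d y _ => ?_⟩,
      fun _ => tor_compat⟩, ⟨inferInstance, inferInstance, fun p F _ _ => ?_⟩, fun p y _ => ?_⟩
  · have h : frame p y = fun a : Fin 4 => (Pi.single a 1 : Pt) := funext (tframe p y)
    rw [h]
    exact tor_cx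
  · rw [e]; exact contDiffOn_const
  · simp [e, pd]
  · simp only [e, w2]
    refine (UnitAddTorus.integral_preimage F (tpt p)).trans ?_
    have h1 : (chartAt Pt p).target =ᵐ[volume] {x : Pt | ∀ i, x i ∈ Ioc (tpt p i) (tpt p i + 1)} := by
      have h2 := Measure.pi_Ioo_ae_eq_pi_Ioc (μ := fun _ : Fin 4 => (volume : Measure ℝ))
        (s := univ) (f := tpt p) (g := fun i => tpt p i + 1)
      have h3 : {x : Pt | ∀ i, x i ∈ Ioc (tpt p i) (tpt p i + 1)} =
          univ.pi fun i => Ioc (tpt p i) (tpt p i + 1) := by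
        ext x
        simp only [mem_ofPred_eq, mem_univ_pi]
      rw [h3]
      exact h2
    rw [setIntegral_congr_set h1]
    simp only [ne_eq, OfNat.ofNat_ne_zero, not_false_eq_true, div_self, abs_one, mul_one]
    rfl
  · have hd : ∀ z, dens Ω p z = 1 := fun z => by
      simp only [dens, e, w2]
      norm_num
    have hp : ∀ a : Fin 4, pd a (fun _ : Pt => (0 : ℝ)) = fun _ => 0 := fun a => by
      funext z
      simp [pd]
    have hc : ∀ c, dc (fun _ : Pt => (0 : ℝ)) c = fun _ => 0 := fun c => by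
      fin_cases c <;> simp [dc, hp]
    have hr : ric Ω p y = fun _ _ => 0 := by
      funext a c
      simp only [ric, hd, Real.log_one, hc, hp]
      norm_num
    rw [scal, hr]
    simp [wedge]

end Pool.Agent.DonKS
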