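import Pool.Agent.Lib.MP_2710d6_gt.KS.Man

open MeasureTheory Set Filter Topology
open scoped Manifold ContDiff

namespace Pool.Agent.DonKS

open Pool.Agent.DonHK

variable {M : Type*} [TopologicalSpace M] [ChartedSpace Pt M] {J : End1 M} {Ω ρ ζ : Form2 M}

noncomputable def kk (Ω ρ : Form2 M) (x : M) : ℝ := quot Ω ρ Ω x / quot Ω ρ ρ x

noncomputable def nn (J : End1 M) (Ω ρ : Form2 M) (x : M) : ℝ := sdTwo J Ω ρ x / quot Ω ρ ρ x ^ 2

noncomputable def th (J : End1 M) (Ω ρ : Form2 M) : Form2 M :=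
  (fun x => kk Ω ρ x • Ω x) + (fun x => (2 / quot Ω ρ ρ x) • anti (J x) (ρ x)) -
    fun x => nn J Ω ρ x • ρ x

theorem quot_th (x : M) : quot Ω ζ (th J Ω ρ) x = kk Ω ρ x * quot Ω ζ Ω x +
    2 / quot Ω ρ ρ x * quot Ω ζ (fun x => anti (J x) (ρ x)) x - nn J Ω ρ x * quot Ω ζ ρ x := by
  rw [quot_comm, th, quot_sub, quot_add, quot_fsmul, quot_fsmul Ω (fun x => anti (J x) (ρ x)),
    quot_fsmul, quot_comm _ Ω, quot_comm _ _ ζ, quot_comm _ ρ ζ]

theorem pd_half (g : Pt → ℝ) (a : Fin 4) (y : Pt) :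
    pd a (fun y => (1 / 2 : ℝ) * g y) y = 1 / 2 * pd a g y :=
  congrArg (fun L : Pt → Pt →L[ℝ] ℝ => L y (Pi.single a 1))
    (fderiv_const_smul_field (𝕜 := ℝ) (f := g) (1 / 2 : ℝ))

noncomputable def sq (Ω : Form2 M) (p : M) (y : Pt) : ℝ := √(dens Ω p y)

noncomputable def hf (Ω : Form2 M) (p : M) (y : Pt) : ℝ := 1 / 2 * Real.log (dens Ω p y)

noncomputable def k2 (Ω ρ : Form2 M) (p : M) (y : Pt) : ℝ :=
  (co2 ρ p 0 2 y - co2 ρ p 1 3 y) / (sq Ω p y * loc (quot Ω ρ ρ) p y)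

noncomputable def k3 (Ω ρ : Form2 M) (p : M) (y : Pt) : ℝ :=
  (co2 ρ p 0 3 y + co2 ρ p 1 2 y) / (sq Ω p y * loc (quot Ω ρ ρ) p y)

theorem d1_hf (p : M) (y : Pt) : d1 (dc (hf Ω p)) y = fun a c => -ric Ω p y a c := by
  have e : ∀ c, dc (hf Ω p) c = fun y => 1 / 2 * dc (fun y => Real.log (dens Ω p y)) c y := by
    intro c
    funext y
    fin_cases c
    · exact (congrArg Neg.neg (pd_half _ 1 y)).trans (mul_neg _ _).symm
    · exact pd_half _ 0 y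
    · exact (congrArg Neg.neg (pd_half _ 3 y)).trans (mul_neg _ _).symm
    · exact pd_half _ 2 y
  funext a c
  rw [d1, e, e, pd_half, pd_half, ric]
  ring

theorem tr_closed (h : Closed2 ρ) (p : M) {y : Pt} (hy : y ∈ (chartAt Pt p).target)
    (ξ : Fin 4 → ℝ) : tr ξ (co2 ρ p) y = 0 := by
  simp only [tr, d3, h.2.2 p _ _ _ y hy]
  ring

variable [IsManifold 𝓘(ℝ, Pt) ∞ M]

theorem sm_kk (h : IsKaehler J Ω) (hρ : Sm2 ρ) (hp : ∀ x, 0 < quot Ω ρ ρ x) : Sm (kk Ω ρ) :=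
  (sm_quot h.nd hρ h.2.1.sm).div₀ (sm_quot h.nd hρ hρ) fun x => (hp x).ne'

theorem sm_nn (h : IsKaehler J Ω) (hρ : Sm2 ρ) (hp : ∀ x, 0 < quot Ω ρ ρ x) : Sm (nn J Ω ρ) :=
  (((sm_quot h.nd hρ h.2.1.sm).pow 2).add (contMDiff_const.mul
    (sm_quot h.nd (h.sm_anti hρ) (h.sm_anti hρ)))).div₀ ((sm_quot h.nd hρ hρ).pow 2)
    fun x => pow_ne_zero 2 (hp x).ne'

theorem sm_th (h : IsKaehler J Ω) (hρ : Sm2 ρ) (hp : ∀ x, 0 < quot Ω ρ ρ x) : Sm2 (th J Ω ρ) := by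
  have s2 : Sm fun x => 2 / quot Ω ρ ρ x :=
    contMDiff_const.div₀ (sm_quot h.nd hρ hρ) fun x => (hp x).ne'
  refine ⟨fun x u => ?_, fun p a c => (((sm_loc (sm_kk h hρ hp) p).mul (h.2.1.2.1 p a c)).add
    ((sm_loc s2 p).mul ((h.sm_anti hρ).2 p a c))).sub ((sm_loc (sm_nn h hρ hp) p).mul (hρ.2 p a c))⟩
  change _ * Ω x u u + _ * anti (J x) (ρ x) u u - _ * ρ x u u = 0
  rw [h.2.1.1 x u, hρ.1 x u, anti_alt (hρ.1 x) u]
  ring

theorem loc_on (h : IsKaehler J Ω) (hρ : Sm2 ρ) (hp : ∀ x, 0 < quot Ω ρ ρ x) (p : M) :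
    ContDiffOn ℝ ∞ (sq Ω p) (chartAt Pt p).target ∧ ContDiffOn ℝ ∞ (hf Ω p) (chartAt Pt p).target ∧
    ContDiffOn ℝ ∞ (k2 Ω ρ p) (chartAt Pt p).target ∧
    ContDiffOn ℝ ∞ (k3 Ω ρ p) (chartAt Pt p).target ∧
    ∀ y ∈ (chartAt Pt p).target, ∀ a, pd a (sq Ω p) y = sq Ω p y * pd a (hf Ω p) y := by
  have d := dens_on h.2.1.sm p
  have d0 := fun y hy => (h.herm p (y := y) hy).1
  have s : ContDiffOn ℝ ∞ (sq Ω p) (chartAt Pt p).target := d.sqrt fun y hy => (d0 y hy).ne'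
  have u := s.mul (sm_loc (sm_quot h.nd hρ hρ) p)
  have u0 : ∀ y ∈ (chartAt Pt p).target, sq Ω p y * loc (quot Ω ρ ρ) p y ≠ 0 := fun y hy =>
    mul_ne_zero (h.herm p hy).2.s0 (hp _).ne'
  refine ⟨s, contDiffOn_const.mul (d.log fun y hy => (d0 y hy).ne'),
    ((hρ.2 p 0 2).sub (hρ.2 p 1 3)).div u u0, ((hρ.2 p 0 3).add (hρ.2 p 1 2)).div u u0,
    fun y hy a => ?_⟩
  unfold hf sq
  rw [pd_half]
  unfold pd
  rw [fderiv_sqrt (dif_tgt d hy) (d0 y hy).ne', fderiv.log (dif_tgt d hy) (d0 y hy).ne']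
  have e := Real.sq_sqrt (d0 y hy).le
  have e0 := (Real.sqrt_pos.2 (d0 y hy)).ne'
  simp only [smul_apply, smul_eq_mul]
  generalize √(dens Ω p y) = s at *
  rw [← e]
  field_simp

variable [MeasurableSpace M] {μ : Measure M} [CompactSpace M] [BorelSpace M]

theorem hasDerivAt_energy (h : IsKaehler J Ω) (hμ : IsVol Ω μ) (hρ : Sm2 ρ)
    (hp : ∀ x, 0 < quot Ω ρ ρ x) (hζ : Sm2 ζ) :
    HasDerivAt (fun t : ℝ => energy J Ω μ fun x => lin (ρ x) (ζ x) t)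
      (∫ x, 2 * quot Ω ζ (th J Ω ρ) x ∂μ) 0 := by
  have := hμ.1
  have a := (sm_quot h.nd hρ h.2.1.sm).continuous
  have b := (sm_quot h.nd hζ h.2.1.sm).continuous
  have c := (sm_quot h.nd (h.sm_anti hρ) (h.sm_anti hρ)).continuous
  have d := (sm_quot h.nd hζ (h.sm_anti hρ)).continuous
  have e := (sm_quot h.nd (h.sm_anti hζ) (h.sm_anti hζ)).continuous
  have k := h.quot_anti hρ hζ
  have l : ∀ t : ℝ, (fun x => anti (J x) (lin (ρ x) (ζ x) t)) =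
      (fun x => anti (J x) (ρ x)) + t • fun x => anti (J x) (ζ x) := fun t => by
    ext x u v
    simp only [anti_apply, lin, Pi.add_apply, Pi.smul_apply, LinearMap.add_apply,
      LinearMap.smul_apply, smul_eq_mul]
    ring
  have l' : ∀ t : ℝ, (fun x => lin (ρ x) (ζ x) t) = ρ + t • ζ := fun _ => rfl
  unfold energy sdTwo
  simp only [l]
  generalize hκ : (fun x => anti (J x) (ρ x)) = κ at *
  generalize (fun x => anti (J x) (ζ x)) = κ' at *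
  convert hasDerivAt_quot μ (N0 := fun x => quot Ω ρ Ω x ^ 2 + 2 * quot Ω κ κ x)
    (N1 := fun x => 2 * (quot Ω ρ Ω x * quot Ω ζ Ω x) + 4 * quot Ω ζ κ x)
    (N2 := fun x => quot Ω ζ Ω x ^ 2 + 2 * quot Ω κ' κ' x) (U1 := fun x => 2 * quot Ω ζ ρ x)
    (by fun_prop) (by fun_prop) (by fun_prop) (sm_quot h.nd hρ hρ).continuous
    (continuous_const.mul (sm_quot h.nd hζ hρ).continuous) (sm_quot h.nd hζ hζ).continuous hp
    using 2 with t
  · congr 1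
    ext x
    rw [l']
    congr 1
    · rw [quot_add, quot_smul, quot_add, quot_smul, quot_comm _ κ, quot_comm _ κ', quot_add,
        quot_smul, quot_add, quot_smul, quot_comm _ κ κ', k]
      ring
    · rw [quot_add, quot_smul, quot_comm _ ρ, quot_comm _ ζ, quot_add, quot_smul, quot_add,
        quot_smul, quot_comm _ ρ ζ]
      ring
  · ext x
    have := (hp x).ne'
    simp only [quot_th, nn, kk, sdTwo, hκ]
    field_simp
    ring

variable [T2Space M]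

theorem crit_loc (h : IsKaehler J Ω) (hμ : IsVol Ω μ) (hρ : Closed2 ρ)
    (hp : ∀ x, 0 < quot Ω ρ ρ x) (hc : IsCritical J Ω μ ρ) (p : M) {y : Pt}
    (hy : y ∈ (chartAt Pt p).target) :
    Crit (fun a c => co2 Ω p a c y) (fun a c => co2 ρ p a c y) √(co2 Ω p 0 1 y) (sq Ω p y)
      (loc (quot Ω ρ ρ) p y) (loc (kk Ω ρ) p y) (k2 Ω ρ p y) (k3 Ω ρ p y) (gr (loc (kk Ω ρ) p) y)
      (fun a => pd a (k2 Ω ρ p) y - k3 Ω ρ p y * dc (hf Ω p) a y)
      (fun a => pd a (k3 Ω ρ p) y + k2 Ω ρ p y * dc (hf Ω p) a y)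
      fun a => 1 / 2 * pd a (loc (nn J Ω ρ) p) y := by
  have hW := (chartAt Pt p).open_target
  obtain ⟨ss, -, s2, s3, hs⟩ := loc_on h hρ.sm hp p
  have s1 := sm_loc (sm_kk h hρ.sm hp) p
  have sn := sm_loc (sm_nn h hρ.sm hp) p
  have D : ∀ z ∈ (chartAt Pt p).target, sq Ω p z ^ 2 = dens Ω p z := fun z hz =>
    Real.sq_sqrt (h.herm p hz).1.le
  have s0 : ∀ z ∈ (chartAt Pt p).target, sq Ω p z ≠ 0 := fun z hz => (h.herm p hz).2.s0
  have u0 : ∀ z, loc (quot Ω ρ ρ) p z ≠ 0 := fun z => (hp _).ne'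
  have an := fun z hz => ev_anti' (h.1 p z hz) (hρ.1 _)
  have en : ∀ z ∈ (chartAt Pt p).target, loc (nn J Ω ρ) p z = loc (kk Ω ρ) p z * loc (kk Ω ρ) p z +
      k2 Ω ρ p z * k2 Ω ρ p z + k3 Ω ρ p z * k3 Ω ρ p z := fun z hz => by
    obtain ⟨a1, a2, a3, a4, a5, a6⟩ := an z hz
    have q : quot Ω (fun x => anti (J x) (ρ x)) (fun x => anti (J x) (ρ x))
        ((chartAt Pt p).symm z) = wedge (ev (anti (J _) (ρ _)) (frame p z))
          (ev (anti (J _) (ρ _)) (frame p z)) / dens Ω p z :=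
      quot_loc h.2.1.1 (h.sm_anti hρ.sm).1 (h.sm_anti hρ.sm).1 p hz
    have := s0 z hz
    have := u0 z
    simp only [loc, nn, kk, sdTwo, q, wedge, a1, a2, a3, a4, a5, a6, k2, k3, co2, ← D z hz] at *
    field_simp
    ring
  refine ⟨(h.herm p hy).2, hp _, ?_, ?_, ?_, ?_, fun a => ?_, fun ξ => ?_⟩
  · rw [D y hy, loc, quot_loc h.2.1.1 hρ.1 hρ.1 p hy]
    exact mul_div_cancel₀ _ (h.herm p hy).1.ne'
  · rw [D y hy, mul_assoc, loc, loc, kk, mul_div_cancel₀ _ (hp _).ne',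
      quot_loc h.2.1.1 hρ.1 h.2.1.1 p hy]
    exact mul_div_cancel₀ _ (h.herm p hy).1.ne'
  · exact mul_div_cancel₀ _ (mul_ne_zero (s0 y hy) (u0 y))
  · exact mul_div_cancel₀ _ (mul_ne_zero (s0 y hy) (u0 y))
  · rw [pd_congr (by filter_upwards [hW.mem_nhds hy] with z hz using en z hz),
      pd_add (dif hW ((s1.mul s1).add (s2.mul s2)) hy) (dif hW (s3.mul s3) hy),
      pd_add (dif hW (s1.mul s1) hy) (dif hW (s2.mul s2) hy), pd_mul (dif hW s1 hy) (dif hW s1 hy),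
      pd_mul (dif hW s2 hy) (dif hW s2 hy), pd_mul (dif hW s3 hy) (dif hW s3 hy), gr]
    ring
  · have E := weak_closed h hμ (sm_th h hρ.sm hp) (fun ζ hζ => by
      obtain ⟨l, hl⟩ := hζ
      have := (hasDerivAt_energy h hμ hρ.sm hp (IsD.sm hl)).unique (hc ζ ⟨l, hl⟩)
      rw [integral_const_mul] at this
      linarith) p hy ξ
    rw [tr_comb hW hy s1 s2 s3 sn (h.2.1.2.1 p) (t2_on ss) (t3_on ss) (hρ.2.1 p)
      (fun a c hac z hz => by
        obtain ⟨a1, a2, a3, a4, a5, a6⟩ := an z hz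
        have := s0 z hz
        have := u0 z
        have e : 2 / loc (quot Ω ρ ρ) p z * ev (anti (J _) (ρ _)) (frame p z) a c =
            k2 Ω ρ p z * t2 (sq Ω p z) a c + k3 Ω ρ p z * t3 (sq Ω p z) a c := by
          fin_cases a <;> fin_cases c <;> first
            | exact absurd hac (by decide)
            | (simp only [Fin.zero_eta, Fin.mk_one, Fin.reduceFinMk, a1, a2, a3, a4, a5, a6, k2, k3,
                co2, t2, t3, Matrix.cons_val_zero, Matrix.cons_val_one, Matrix.cons_val]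
               field_simp
               try ring)
        rw [add_assoc, ← e]
        rfl), tr_closed h.2.1 p hy, tr_closed hρ p hy, (tr_t (hs y hy) ξ).1,
      (tr_t (hs y hy) ξ).2] at E
    simp only [w3, wedge, gr] at E ⊢
    linear_combination E

end Pool.Agent.DonKS
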